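import Mathlib

/-!
Dyadic layers: numerical lemmas.
-/

open MeasureTheory Set Filter Topology
open scoped ENNReal

namespace Pool.Agent.MC

lemma tsum_geom {θ : ℝ} (h0 : 0 < θ) (h1 : θ < 1) :
    ∑' m : ℤ, ENNReal.ofReal (θ ^ m.natAbs) ≠ ⊤ := by
  have hs : Summable fun m : ℤ => θ ^ m.natAbs := by
    rw [summable_int_iff_summable_nat_and_neg]
    constructor
    · simpa using summable_geometric_of_lt_one h0.le h1
    · simpa using summable_geometric_of_lt_one h0.le h1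
  rw [← ENNReal.ofReal_tsum_of_nonneg (fun m => by positivity) hs]
  exact ENNReal.ofReal_ne_top

/-- Summation over the layers. -/
theorem layer_sum (p0 p : ℝ) (h0 : 0 < p0) (hp : p0 < p) : ∃ D : ℝ≥0∞, D ≠ ⊤ ∧ D ≠ 0 ∧
    ∀ (τ : ℤ → ℝ≥0∞) (A : ℝ≥0∞), (∀ l, τ l ≤ 1) →
      (∀ l : ℤ, ENNReal.ofReal (((2 : ℝ) ^ l) ^ p) * τ l ^ p0 ≤ A) →
      ∑' l : ℤ, ENNReal.ofReal ((2 : ℝ) ^ l) * τ l ≤ D * A ^ (1 / p) := by
  have hp0 : 0 < p := h0.trans hp
  set κ := p / p0 with hκ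
  have hκ1 : 1 < κ := (one_lt_div h0).2 hp
  have hκ0 : 0 < κ := by linarith
  set θ := max (1 / 2 : ℝ) (2 ^ (1 - κ)) with hθ
  have hθ1 : θ < 1 := max_lt (by norm_num) (Real.rpow_lt_one_of_one_lt_of_neg (by norm_num)
    (by linarith))
  have hθ0 : 0 < θ := lt_max_of_lt_left (by norm_num)
  set Dr : ℝ := 2 ^ κ with hDr
  have hDr1 : 1 ≤ Dr := Real.one_le_rpow (by norm_num) hκ0.le
  refine ⟨∑' m : ℤ, ENNReal.ofReal (Dr * θ ^ m.natAbs), ?_, ?_, ?_⟩
  · have : ∀ m : ℤ, ENNReal.ofReal (Dr * θ ^ m.natAbs)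
        = ENNReal.ofReal Dr * ENNReal.ofReal (θ ^ m.natAbs) := fun m =>
      ENNReal.ofReal_mul (by linarith)
    simp only [this]
    rw [ENNReal.tsum_mul_left]
    exact ENNReal.mul_ne_top ENNReal.ofReal_ne_top (tsum_geom hθ0 hθ1)
  · intro h
    rw [ENNReal.tsum_eq_zero] at h
    have := h 0
    rw [ENNReal.ofReal_eq_zero] at this
    simp at this
    linarith
  intro τ A hτ hA
  have hDne : (∑' m : ℤ, ENNReal.ofReal (Dr * θ ^ m.natAbs)) ≠ 0 := by
    intro h
    rw [ENNReal.tsum_eq_zero] at h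
    have := h 0
    rw [ENNReal.ofReal_eq_zero] at this
    simp at this
    linarith
  rcases eq_or_ne A ⊤ with hAt | hAt
  · rw [hAt, ENNReal.top_rpow_of_pos (by positivity), ENNReal.mul_top hDne]
    exact le_top
  rcases eq_or_ne A 0 with hA0 | hA0
  · have hz : ∀ l, τ l = 0 := by
      intro l
      have h1 := hA l
      rw [hA0, nonpos_iff_eq_zero, mul_eq_zero] at h1
      rcases h1 with h1 | h1
      · rw [ENNReal.ofReal_eq_zero] at h1
        have : 0 < ((2 : ℝ) ^ l) ^ p := by positivity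
        linarith
      · rw [ENNReal.rpow_eq_zero_iff] at h1
        rcases h1 with h1 | h1
        · exact h1.1
        · linarith [h1.2]
    simp [hz]
  have hAr : 0 < A.toReal := ENNReal.toReal_pos hA0 hAt
  set a := A.toReal ^ (1 / p) with ha
  have ha0 : 0 < a := by positivity
  have hap : a ^ p = A.toReal := by
    rw [ha, ← Real.rpow_mul hAr.le, one_div, inv_mul_cancel₀ hp0.ne', Real.rpow_one]
  have hAa : A ^ (1 / p) = ENNReal.ofReal a := by
    rw [ha, ← ENNReal.ofReal_rpow_of_pos hAr, ENNReal.ofReal_toReal hAt]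
  obtain ⟨l1, hl1, hl2⟩ := exists_mem_Ico_zpow ha0 (by norm_num : (1 : ℝ) < 2)
  rw [hAa, ← (Equiv.addLeft l1).tsum_eq]
  have key : ∀ m : ℤ, ENNReal.ofReal ((2 : ℝ) ^ (l1 + m)) * τ (l1 + m)
      ≤ ENNReal.ofReal (Dr * θ ^ m.natAbs) * ENNReal.ofReal a := by
    intro m
    rw [← ENNReal.ofReal_mul (by positivity)]
    rcases le_or_gt m 0 with hm | hm
    · calc ENNReal.ofReal ((2 : ℝ) ^ (l1 + m)) * τ (l1 + m)
          ≤ ENNReal.ofReal ((2 : ℝ) ^ (l1 + m)) * 1 := by gcongr; exact hτ _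
        _ ≤ ENNReal.ofReal (Dr * θ ^ m.natAbs * a) := by
            rw [mul_one]
            apply ENNReal.ofReal_le_ofReal
            have h2 : (2 : ℝ) ^ m = (1 / 2) ^ m.natAbs := by
              obtain ⟨k, rfl⟩ : ∃ k : ℕ, m = -(k : ℤ) := ⟨m.natAbs, by omega⟩
              rw [zpow_neg, zpow_natCast, Int.natAbs_neg, Int.natAbs_natCast, one_div, inv_pow]
            rw [zpow_add₀ (by norm_num), h2]
            calc (2 : ℝ) ^ l1 * (1 / 2) ^ m.natAbs ≤ a * θ ^ m.natAbs := by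
                  gcongr
                  exact le_max_left _ _
              _ = 1 * θ ^ m.natAbs * a := by ring
              _ ≤ Dr * θ ^ m.natAbs * a := by gcongr
    · obtain ⟨k, rfl⟩ : ∃ k : ℕ, m = (k : ℤ) := ⟨m.natAbs, by omega⟩
      set l := l1 + (k : ℤ) with hl
      have hτt : τ l ≠ ⊤ := ((hτ l).trans_lt ENNReal.one_lt_top).ne
      set T := (τ l).toReal with hT
      have hT0 : 0 ≤ T := ENNReal.toReal_nonneg
      have hτT : τ l = ENNReal.ofReal T := (ENNReal.ofReal_toReal hτt).symm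
      have h1 := hA l
      rw [hτT, ENNReal.ofReal_rpow_of_nonneg hT0 h0.le, ← ENNReal.ofReal_mul (by positivity),
        ← ENNReal.ofReal_toReal hAt, ENNReal.ofReal_le_ofReal_iff hAr.le, ← hap] at h1
      have h2l : (0 : ℝ) < 2 ^ l := by positivity
      have h3 : T ≤ (a / 2 ^ l) ^ κ := by
        have h4 : T ^ p0 ≤ (a / 2 ^ l) ^ p := by
          rw [Real.div_rpow ha0.le h2l.le, le_div_iff₀ (by positivity), mul_comm]
          exact h1
        have h5 : T = (T ^ p0) ^ (1 / p0) := by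
          rw [← Real.rpow_mul hT0, mul_one_div_cancel h0.ne', Real.rpow_one]
        rw [h5, hκ]
        calc (T ^ p0) ^ (1 / p0) ≤ ((a / 2 ^ l) ^ p) ^ (1 / p0) := by gcongr
          _ = (a / 2 ^ l) ^ (p / p0) := by
              rw [← Real.rpow_mul (by positivity), mul_one_div]
      rw [hτT, ← ENNReal.ofReal_mul h2l.le]
      apply ENNReal.ofReal_le_ofReal
      rw [Int.natAbs_natCast]
      have h6 : a / 2 ^ l ≤ 2 ^ (1 - (k : ℝ)) := by
        rw [div_le_iff₀ h2l]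
        calc a ≤ 2 ^ (l1 + 1) := hl2.le
          _ = 2 ^ (1 - (k : ℝ)) * 2 ^ l := by
              rw [← Real.rpow_intCast 2 l, ← Real.rpow_add (by norm_num),
                ← Real.rpow_intCast 2 (l1 + 1)]
              congr 1
              rw [hl]; push_cast; ring
      calc (2 : ℝ) ^ l * T ≤ 2 ^ l * ((2 : ℝ) ^ (1 - (k : ℝ))) ^ κ := by
            gcongr
            exact h3.trans (Real.rpow_le_rpow (by positivity) h6 hκ0.le)
        _ = 2 ^ l1 * (Dr * (2 ^ (1 - κ)) ^ k) := by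
            rw [hDr, ← Real.rpow_intCast 2 l, ← Real.rpow_intCast 2 l1,
              ← Real.rpow_mul (by norm_num), ← Real.rpow_natCast _ k,
              ← Real.rpow_mul (by norm_num), ← Real.rpow_add (by norm_num),
              ← Real.rpow_add (by norm_num), ← Real.rpow_add (by norm_num)]
            congr 1
            rw [hl]; push_cast; ring
        _ ≤ a * (Dr * θ ^ k) := by
            gcongr
            exact le_max_right _ _
        _ = Dr * θ ^ k * a := by ring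
  calc ∑' m : ℤ, ENNReal.ofReal ((2 : ℝ) ^ (Equiv.addLeft l1 m)) * τ (Equiv.addLeft l1 m)
      ≤ ∑' m : ℤ, ENNReal.ofReal (Dr * θ ^ m.natAbs) * ENNReal.ofReal a :=
        ENNReal.tsum_le_tsum key
    _ = _ := by rw [ENNReal.tsum_mul_right]

/-- Dyadic layers below a number. -/
theorem layer_pow (p : ℝ) (hp : 1 ≤ p) (v : ℝ) (hv : 0 ≤ v) :
    ∑' l : ℤ, (if (2 : ℝ) ^ l < v then ENNReal.ofReal (((2 : ℝ) ^ l) ^ p) else 0)
      ≤ (∑' m : ℤ, ENNReal.ofReal ((1 / 2 : ℝ) ^ m.natAbs)) * ENNReal.ofReal (v ^ p) := by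
  rcases hv.eq_or_lt with h0 | hpos
  · have : ∀ l : ℤ, ¬ (2 : ℝ) ^ l < v := by
      intro l
      rw [← h0, not_lt]; positivity
    simp [this]
  obtain ⟨l0, hl1, hl2⟩ := exists_mem_Ioc_zpow hpos (by norm_num : (1 : ℝ) < 2)
  rw [← (Equiv.addLeft l0).tsum_eq, ← ENNReal.tsum_mul_right]
  apply ENNReal.tsum_le_tsum
  intro m
  simp only [Equiv.coe_addLeft]
  rcases le_or_gt m 0 with hm | hm
  · rw [← ENNReal.ofReal_mul (by positivity)]
    split_ifs
    · apply ENNReal.ofReal_le_ofReal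
      have h2 : (2 : ℝ) ^ m = (1 / 2) ^ m.natAbs := by
        obtain ⟨k, rfl⟩ : ∃ k : ℕ, m = -(k : ℤ) := ⟨m.natAbs, by omega⟩
        rw [zpow_neg, zpow_natCast, Int.natAbs_neg, Int.natAbs_natCast, one_div, inv_pow]
      rw [zpow_add₀ (by norm_num), Real.mul_rpow (by positivity) (by positivity), h2]
      have h3 : ((1 / 2 : ℝ) ^ m.natAbs) ^ p ≤ (1 / 2 : ℝ) ^ m.natAbs := by
        calc ((1 / 2 : ℝ) ^ m.natAbs) ^ p ≤ ((1 / 2 : ℝ) ^ m.natAbs) ^ (1 : ℝ) :=
              Real.rpow_le_rpow_of_exponent_ge (by positivity)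
                (pow_le_one₀ (by norm_num) (by norm_num)) hp
          _ = _ := Real.rpow_one _
      calc ((2 : ℝ) ^ l0) ^ p * ((1 / 2 : ℝ) ^ m.natAbs) ^ p ≤ v ^ p * (1 / 2 : ℝ) ^ m.natAbs := by
            gcongr
        _ = _ := mul_comm _ _
    · exact zero_le
  · rw [if_neg]
    · exact zero_le
    · rw [not_lt]
      refine hl2.trans ?_
      exact zpow_le_zpow_right₀ (by norm_num) (by omega)

/-- Dyadic layers dominate. -/
theorem layer_le (v : ℝ) (hv : 0 ≤ v) :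
    ENNReal.ofReal v
      ≤ 2 * ∑' l : ℤ, (if (2 : ℝ) ^ l < v then ENNReal.ofReal ((2 : ℝ) ^ l) else 0) := by
  rcases hv.eq_or_lt with h0 | hpos
  · rw [← h0, ENNReal.ofReal_zero]; exact zero_le
  obtain ⟨l0, hl1, hl2⟩ := exists_mem_Ioc_zpow hpos (by norm_num : (1 : ℝ) < 2)
  calc ENNReal.ofReal v ≤ ENNReal.ofReal (2 * 2 ^ l0) := by
        apply ENNReal.ofReal_le_ofReal
        rw [zpow_add₀ (by norm_num), zpow_one] at hl2
        linarith
    _ = 2 * (if (2 : ℝ) ^ l0 < v then ENNReal.ofReal ((2 : ℝ) ^ l0) else 0) := by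
        rw [if_pos hl1, ENNReal.ofReal_mul (by norm_num), ENNReal.ofReal_ofNat]
    _ ≤ _ := by
        gcongr
        exact ENNReal.le_tsum (f := fun l : ℤ =>
          (if (2 : ℝ) ^ l < v then ENNReal.ofReal ((2 : ℝ) ^ l) else 0)) l0

end Pool.Agent.MC
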