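import Pool.Agent.Lib_helper71.MC.Major
import Pool.Agent.Lib_helper71.MC.Layer

/-!
Assembly of the maximal estimate from the layers.
-/

open MeasureTheory Set Filter Topology Metric
open scoped ENNReal Pointwise RealInnerProductSpace ContDiff

namespace Pool.Agent.MC

variable {n : ℕ}

/-- Functions all of whose superlevel sets are unions of at most `m` convex sets. -/
def CvxPc (m : ℕ) (f : En n → ℝ) : Prop :=
  ∀ v : ℝ, 0 < v → ∃ K : Fin m → Set (En n), (∀ i, Convex ℝ (K i)) ∧ {y | v < |f y|} = ⋃ i, K i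

/-- Bounded convex sets are contained in open ones of almost the same volume. -/
theorem fatten {K : Set (En n)} (hK : Convex ℝ K) (hKb : Bornology.IsBounded K) {W : ℝ≥0∞}
    (hW0 : W ≠ 0) (hWt : W ≠ ⊤) (hKW : volume K ≤ W) :
    ∃ K' : Set (En n), K ⊆ K' ∧ IsOpen K' ∧ Convex ℝ K' ∧ Bornology.IsBounded K' ∧
      volume K' ≤ 2 * W := by
  have h1 : Tendsto (fun r => volume (thickening r K)) (𝓝[>] 0) (𝓝 (volume (closure K))) :=
    tendsto_measure_thickening ⟨1, one_pos, hKb.thickening.measure_lt_top.ne⟩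
  have h2 : volume (closure K) ≤ volume K := by
    have h3 : closure K ⊆ K ∪ frontier K := by
      intro x hx
      by_cases hxK : x ∈ K
      · exact Or.inl hxK
      · exact Or.inr ⟨hx, fun h => hxK (interior_subset h)⟩
    calc volume (closure K) ≤ volume (K ∪ frontier K) := measure_mono h3
      _ ≤ volume K + volume (frontier K) := measure_union_le _ _
      _ = volume K := by rw [hK.addHaar_frontier volume, add_zero]
  have h4 : volume (closure K) < 2 * W := by
    refine (h2.trans hKW).trans_lt ?_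
    rw [two_mul]
    exact ENNReal.lt_add_right hWt hW0
  have h5 := (h1.eventually_lt_const h4).and self_mem_nhdsWithin
  obtain ⟨r, hr1, hr2⟩ := h5.exists
  exact ⟨thickening r K, self_subset_thickening hr2 K, isOpen_thickening, hK.thickening r,
    hKb.thickening, hr1.le⟩

/-- The maximal estimate for one piece. -/
theorem piece_bound (hn : 2 ≤ n) (c Γ p0 p : ℝ) (hc : 0 < c) (hΓ : 1 ≤ Γ) (h1 : (n : ℝ) < p0)
    (h2 : p0 < p) :
    ∃ C D : ℝ≥0∞, C ≠ ⊤ ∧ D ≠ ⊤ ∧ ∀ (γ : ℝ → En n) (α β : ℝ), Piece n γ α β c Γ →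
    ∀ (N : ℕ) (f : En n → ℝ), Continuous f → HasCompactSupport f → CvxPc N f →
      ∃ A : En n → ℝ≥0∞, Measurable A ∧
        ∫⁻ x, A x ≤ C * (N : ℝ≥0∞) ^ p0 * ∫⁻ y, ENNReal.ofReal (|f y| ^ p) ∧
        ∀ (x : En n) (t : ℝ), 0 < t →
          ∫⁻ s in Ioo α β, ENNReal.ofReal |f (x - t • γ s)| ≤ D * A x ^ (1 / p) := by
  have hn2 : (2 : ℝ) ≤ n := by exact_mod_cast hn
  have hp00 : 0 < p0 := by linarith
  have hp01 : 1 ≤ p0 := by linarith
  have hpp : 0 < p := by linarith
  have hp1 : 1 ≤ p := by linarith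
  obtain ⟨Cm, hCm, Hm⟩ := majorant (n := n) hn c Γ p0 hc hΓ h1
  obtain ⟨D, hDt, hD0, HD⟩ := layer_sum p0 p hp00 h2
  set G : ℝ≥0∞ := ∑' m : ℤ, ENNReal.ofReal ((1 / 2 : ℝ) ^ m.natAbs) with hG
  have hGt : G ≠ ⊤ := tsum_geom (by norm_num) (by norm_num)
  refine ⟨2 * Cm * G, 2 * D, ENNReal.mul_ne_top (ENNReal.mul_ne_top (by simp) hCm) hGt,
    ENNReal.mul_ne_top (by simp) hDt, ?_⟩
  intro γ α β hP N f hf hfc hlev
  have hγc := hP.smooth.continuous
  have hNt : (N : ℝ≥0∞) ≠ ⊤ := ENNReal.natCast_ne_top N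
  set K : ℤ → Set (En n) := fun l => {y | (2 : ℝ) ^ l < |f y|} with hK
  have hKo : ∀ l, IsOpen (K l) := fun l => isOpen_lt continuous_const hf.abs
  have hKb : ∀ l, Bornology.IsBounded (K l) := by
    intro l
    refine (hfc.isCompact.isBounded).subset ?_
    intro y hy
    apply subset_tsupport
    rw [Function.mem_support]
    intro h0
    have h3 : (2 : ℝ) ^ l < |f y| := hy
    rw [h0, abs_zero] at h3
    exact absurd h3 (not_lt.2 (by positivity))
  -- the open convex sets
  have hcov : ∀ l : ℤ, ∃ K' : Fin N → Set (En n), (∀ i, IsOpen (K' i)) ∧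
      (∀ i, Convex ℝ (K' i)) ∧ (∀ i, Bornology.IsBounded (K' i)) ∧
      (∀ i, volume (K' i) ≤ 2 * volume (K l)) ∧ K l ⊆ ⋃ i, K' i := by
    intro l
    obtain ⟨K0, hK0c, hK0u⟩ := hlev ((2 : ℝ) ^ l) (by positivity)
    have hsub : ∀ i, K0 i ⊆ K l := by
      intro i
      show K0 i ⊆ {y | (2 : ℝ) ^ l < |f y|}
      rw [hK0u]
      exact subset_iUnion K0 i
    rcases eq_or_ne (volume (K l)) 0 with h0 | h0
    · have he : K l = ∅ := ((hKo l).measure_eq_zero_iff (μ := volume)).1 h0
      exact ⟨fun _ => ∅, fun _ => isOpen_empty, fun _ => convex_empty,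
        fun _ => Bornology.isBounded_empty, fun _ => by simp, by rw [he]; exact empty_subset _⟩
    · have hKt : volume (K l) ≠ ⊤ := (hKb l).measure_lt_top.ne
      choose K' hK1 hK2 hK3 hK4 hK5 using fun i => fatten (hK0c i) ((hKb l).subset (hsub i)) h0
        hKt (measure_mono (hsub i))
      refine ⟨K', hK2, hK3, hK4, hK5, ?_⟩
      show {y | (2 : ℝ) ^ l < |f y|} ⊆ _
      rw [hK0u]
      exact iUnion_mono hK1
  choose K' hK1 hK2 hK3 hK4 hK5 using hcov
  choose m0 hm1 hm2 hm3 using fun (l : ℤ) (i : Fin N) =>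
    Hm γ α β hP (K' l i) (hK1 l i) (hK2 l i) (hK3 l i)
  set m : ℤ → En n → ℝ≥0∞ := fun l x => (N : ℝ≥0∞) ^ (p0 - 1) * ∑ i, m0 l i x with hm
  have hmm : ∀ l, Measurable (m l) := fun l =>
    (Finset.measurable_sum _ fun i _ => hm1 l i).const_mul _
  have hmi : ∀ l, ∫⁻ x, m l x ≤ 2 * Cm * (N : ℝ≥0∞) ^ p0 * volume (K l) := by
    intro l
    simp only [hm]
    rw [lintegral_const_mul _ (Finset.measurable_sum _ fun i _ => hm1 l i),
      lintegral_finsetSum _ fun i _ => hm1 l i]
    have h3 : ∑ i : Fin N, ∫⁻ x, m0 l i x ≤ ∑ _i : Fin N, Cm * (2 * volume (K l)) := by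
      apply Finset.sum_le_sum
      intro i _
      refine (hm2 l i).trans ?_
      gcongr
      exact hK4 l i
    rw [Finset.sum_const, Finset.card_univ, Fintype.card_fin, nsmul_eq_mul] at h3
    rcases Nat.eq_zero_or_pos N with hN | hN
    · subst hN
      simp
    · have hN0 : (N : ℝ≥0∞) ≠ 0 := by exact_mod_cast hN.ne'
      calc (N : ℝ≥0∞) ^ (p0 - 1) * ∑ i : Fin N, ∫⁻ x, m0 l i x
          ≤ (N : ℝ≥0∞) ^ (p0 - 1) * ((N : ℝ≥0∞) * (Cm * (2 * volume (K l)))) := by gcongr
        _ = 2 * Cm * ((N : ℝ≥0∞) ^ (p0 - 1) * (N : ℝ≥0∞)) * volume (K l) := by ring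
        _ = 2 * Cm * (N : ℝ≥0∞) ^ p0 * volume (K l) := by
            congr 2
            conv_lhs => rw [← ENNReal.rpow_one (N : ℝ≥0∞), ← ENNReal.rpow_mul, one_mul,
              ← ENNReal.rpow_add _ _ hN0 hNt]
            congr 1
            ring
  have hmx : ∀ (l : ℤ) (x : En n) (t : ℝ), 0 < t →
      volume (Sl γ α β (K l) x t) ^ p0 ≤ m l x := by
    intro l x t ht
    have hsub : Sl γ α β (K l) x t ⊆ ⋃ i, Sl γ α β (K' l i) x t := by
      intro s hs
      obtain ⟨i, hi⟩ := mem_iUnion.1 (hK5 l hs.2)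
      exact mem_iUnion.2 ⟨i, hs.1, hi⟩
    calc volume (Sl γ α β (K l) x t) ^ p0
        ≤ (∑ i, volume (Sl γ α β (K' l i) x t)) ^ p0 := by
          apply ENNReal.rpow_le_rpow _ hp00.le
          exact (measure_mono hsub).trans (measure_iUnion_fintype_le _ _)
      _ ≤ (N : ℝ≥0∞) ^ (p0 - 1) * ∑ i, volume (Sl γ α β (K' l i) x t) ^ p0 := by
          have h3 := ENNReal.rpow_sum_le_const_mul_sum_rpow Finset.univ
            (fun i => volume (Sl γ α β (K' l i) x t)) hp01
          simpa using h3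
      _ ≤ m l x := by
          simp only [hm]
          gcongr with i
          exact hm3 l i x t ht
  set A : En n → ℝ≥0∞ := fun x => ∑' l : ℤ, ENNReal.ofReal (((2 : ℝ) ^ l) ^ p) * m l x with hA
  have hAm : Measurable A := Measurable.ennreal_tsum fun l => (hmm l).const_mul _
  refine ⟨A, hAm, ?_, ?_⟩
  · set Q : ℝ≥0∞ := 2 * Cm * (N : ℝ≥0∞) ^ p0 with hQ
    calc ∫⁻ x, A x = ∑' l : ℤ, ∫⁻ x, ENNReal.ofReal (((2 : ℝ) ^ l) ^ p) * m l x :=
          lintegral_tsum fun l => ((hmm l).const_mul _).aemeasurable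
      _ ≤ ∑' l : ℤ, Q * ∫⁻ y, (if (2 : ℝ) ^ l < |f y| then
            ENNReal.ofReal (((2 : ℝ) ^ l) ^ p) else 0) := by
          apply ENNReal.tsum_le_tsum
          intro l
          rw [lintegral_const_mul _ (hmm l)]
          have h4 : ∫⁻ y, (if (2 : ℝ) ^ l < |f y| then
              ENNReal.ofReal (((2 : ℝ) ^ l) ^ p) else 0) =
              ENNReal.ofReal (((2 : ℝ) ^ l) ^ p) * volume (K l) := by
            have h5 : (fun y => if (2 : ℝ) ^ l < |f y| then
                ENNReal.ofReal (((2 : ℝ) ^ l) ^ p) else 0) =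
                (K l).indicator fun _ => ENNReal.ofReal (((2 : ℝ) ^ l) ^ p) := by
              funext y
              by_cases h : (2 : ℝ) ^ l < |f y|
              · rw [if_pos h, indicator_of_mem (show y ∈ K l from h)]
              · rw [if_neg h, indicator_of_notMem (show y ∉ K l from h)]
            rw [h5, lintegral_indicator_const (hKo l).measurableSet]
          rw [h4]
          calc ENNReal.ofReal (((2 : ℝ) ^ l) ^ p) * ∫⁻ x, m l x
              ≤ ENNReal.ofReal (((2 : ℝ) ^ l) ^ p) * (Q * volume (K l)) := by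
                gcongr
                exact hmi l
            _ = _ := by ring
      _ = Q * ∫⁻ y, ∑' l : ℤ, (if (2 : ℝ) ^ l < |f y| then
            ENNReal.ofReal (((2 : ℝ) ^ l) ^ p) else 0) := by
          rw [ENNReal.tsum_mul_left, lintegral_tsum]
          intro l
          exact (Measurable.ite (hKo l).measurableSet measurable_const
            measurable_const).aemeasurable
      _ ≤ Q * ∫⁻ y, G * ENNReal.ofReal (|f y| ^ p) := by
          gcongr with y
          exact layer_pow p hp1 _ (abs_nonneg _)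
      _ = 2 * Cm * G * (N : ℝ≥0∞) ^ p0 * ∫⁻ y, ENNReal.ofReal (|f y| ^ p) := by
          rw [lintegral_const_mul' _ _ hGt, hQ]
          ring
  · intro x t ht
    have hτ1 : ∀ l, volume (Sl γ α β (K l) x t) ≤ 1 := by
      intro l
      refine (measure_mono (t := Ioo α β) (fun s hs => hs.1)).trans ?_
      rw [Real.volume_Ioo]
      exact (ENNReal.ofReal_le_ofReal hP.len).trans (by simp)
    have hAl : ∀ l : ℤ, ENNReal.ofReal (((2 : ℝ) ^ l) ^ p) *
        volume (Sl γ α β (K l) x t) ^ p0 ≤ A x := by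
      intro l
      calc ENNReal.ofReal (((2 : ℝ) ^ l) ^ p) * volume (Sl γ α β (K l) x t) ^ p0
          ≤ ENNReal.ofReal (((2 : ℝ) ^ l) ^ p) * m l x := by
            gcongr
            exact hmx l x t ht
        _ ≤ A x := ENNReal.le_tsum (f := fun l : ℤ =>
            ENNReal.ofReal (((2 : ℝ) ^ l) ^ p) * m l x) l
    have hmeas : ∀ l : ℤ, Measurable fun s : ℝ => if (2 : ℝ) ^ l < |f (x - t • γ s)| then
        ENNReal.ofReal ((2 : ℝ) ^ l) else 0 := by
      intro l
      refine Measurable.ite ?_ measurable_const measurable_const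
      exact ((hKo l).preimage (by fun_prop : Continuous fun s => x - t • γ s)).measurableSet
    calc ∫⁻ s in Ioo α β, ENNReal.ofReal |f (x - t • γ s)|
        ≤ ∫⁻ s in Ioo α β, 2 * ∑' l : ℤ, (if (2 : ℝ) ^ l < |f (x - t • γ s)| then
            ENNReal.ofReal ((2 : ℝ) ^ l) else 0) :=
          lintegral_mono fun s => layer_le _ (abs_nonneg _)
      _ = 2 * ∑' l : ℤ, ∫⁻ s in Ioo α β, (if (2 : ℝ) ^ l < |f (x - t • γ s)| then
            ENNReal.ofReal ((2 : ℝ) ^ l) else 0) := by
          rw [lintegral_const_mul' _ _ (by simp), lintegral_tsum]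
          intro l
          exact (hmeas l).aemeasurable
      _ = 2 * ∑' l : ℤ, ENNReal.ofReal ((2 : ℝ) ^ l) * volume (Sl γ α β (K l) x t) := by
          congr 2
          funext l
          have h5 : (fun s => if (2 : ℝ) ^ l < |f (x - t • γ s)| then
              ENNReal.ofReal ((2 : ℝ) ^ l) else 0) =
              {s | x - t • γ s ∈ K l}.indicator fun _ => ENNReal.ofReal ((2 : ℝ) ^ l) := by
            funext s
            by_cases h : (2 : ℝ) ^ l < |f (x - t • γ s)|
            · rw [if_pos h, indicator_of_mem (show s ∈ {s | x - t • γ s ∈ K l} from h)]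
            · rw [if_neg h, indicator_of_notMem (show s ∉ {s | x - t • γ s ∈ K l} from h)]
          have hms : MeasurableSet {s | x - t • γ s ∈ K l} :=
            ((hKo l).preimage (by fun_prop : Continuous fun s => x - t • γ s)).measurableSet
          rw [h5, lintegral_indicator_const hms, Measure.restrict_apply hms]
          congr 2
          ext s
          exact and_comm
      _ ≤ 2 * (D * A x ^ (1 / p)) := by
          gcongr
          exact HD _ _ hτ1 hAl
      _ = 2 * D * A x ^ (1 / p) := by rw [mul_assoc]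

end Pool.Agent.MC
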