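import Pool.Agent.Lib_helper71.MC.Asm

/-!
The maximal estimate: covering of the curve by short pieces, and the norms.
-/

open MeasureTheory Set Filter Topology Metric
open scoped ENNReal Pointwise RealInnerProductSpace ContDiff

namespace Pool.Agent.MC

variable {n : ℕ}

theorem cover (hn : 2 ≤ n) (γ : ℝ → En n) (a b : ℝ) (hab : a < b) (hγ : ContDiff ℝ ∞ γ)
    (hnd : ∀ s ∈ Icc a b, LinearIndependent ℝ (fun k : Fin n => iteratedDeriv ((k : ℕ) + 1) γ s)) :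
    ∃ c Γ : ℝ, 0 < c ∧ 1 ≤ Γ ∧ ∃ (T : Finset ℝ) (α β : ℝ → ℝ),
      (∀ i ∈ T, Piece n γ (α i) (β i) c Γ) ∧ Ioo a b ⊆ ⋃ i ∈ T, Ioo (α i) (β i) := by
  obtain ⟨c, δ, hc, hδ, H⟩ := finite_type (by omega : 0 < n) γ a b hab hγ hnd
  obtain ⟨Γ0, hΓ0⟩ : ∃ Γ0, ∀ s ∈ Icc a b, ‖γ s‖ ≤ Γ0 :=
    isCompact_Icc.exists_bound_of_continuousOn hγ.continuous.continuousOn
  set δ' := min δ (1 / 2) with hδ'
  have hδ'0 : 0 < δ' := lt_min hδ (by norm_num)
  have hδ'1 : δ' ≤ δ := min_le_left _ _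
  have hδ'2 : δ' ≤ 1 / 2 := min_le_right _ _
  obtain ⟨T, hTsub, hTfin, hTcov⟩ := (isCompact_Icc (a := a) (b := b)).finite_cover_balls hδ'0
  refine ⟨c, max 1 (Γ0 + 1), hc, le_max_left _ _, hTfin.toFinset, fun i => max a (i - δ'),
    fun i => min b (i + δ'), ?_, ?_⟩
  · intro i hi
    have hi' : i ∈ T := hTfin.mem_toFinset.1 hi
    have hin : ∀ s ∈ Ioo (max a (i - δ')) (min b (i + δ')), s ∈ Icc a b ∧ |s - i| < δ := by
      intro s hs
      have h1 := (le_max_left _ _).trans_lt hs.1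
      have h2 := (le_max_right _ _).trans_lt hs.1
      have h3 := hs.2.trans_le (min_le_left _ _)
      have h4 := hs.2.trans_le (min_le_right _ _)
      exact ⟨⟨h1.le, h3.le⟩, abs_lt.2 ⟨by linarith, by linarith⟩⟩
    refine ⟨hγ, ?_, ?_, ?_, le_max_left _ _, hc⟩
    · have h1 : min b (i + δ') ≤ i + δ' := min_le_right _ _
      have h2 : i - δ' ≤ max a (i - δ') := le_max_right _ _
      show min b (i + δ') - max a (i - δ') ≤ 1
      linarith
    · intro e he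
      obtain ⟨k, hk, h⟩ := H e he i (hTsub hi')
      refine ⟨k, hk, ?_⟩
      rcases h with h | h
      · left
        intro s hs
        rw [iteratedDeriv_inner γ hγ e (k + 1)]
        exact h s (hin s hs).1 (hin s hs).2
      · right
        intro s hs
        rw [iteratedDeriv_inner γ hγ e (k + 1)]
        exact h s (hin s hs).1 (hin s hs).2
    · intro s hs
      refine (hΓ0 s (hin s hs).1).trans_lt ?_
      exact (lt_add_one _).trans_le (le_max_right _ _)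
  · intro s hs
    have h1 := hTcov (Ioo_subset_Icc_self hs)
    rw [mem_iUnion₂] at h1
    obtain ⟨i, hi, hsi⟩ := h1
    rw [mem_iUnion₂]
    refine ⟨i, hTfin.mem_toFinset.2 hi, ?_⟩
    rw [mem_ball, Real.dist_eq, abs_lt] at hsi
    exact ⟨max_lt hs.1 (by linarith), lt_min hs.2 (by linarith)⟩

/-- The maximal function. -/
noncomputable def Mx (γ : ℝ → En n) (ψ : ℝ → ℝ) (f : En n → ℝ) (x : En n) : ℝ :=
  ⨆ t : Ioi (0 : ℝ), |∫ s : ℝ, ψ s * f (x - (t : ℝ) • γ s)|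

lemma ofReal_iSup_le {ι : Type*} [Nonempty ι] (g : ι → ℝ) (B : ℝ≥0∞)
    (h : ∀ i, ENNReal.ofReal (g i) ≤ B) : ENNReal.ofReal (⨆ i, g i) ≤ B := by
  rcases eq_or_ne B ⊤ with hB | hB
  · rw [hB]; exact le_top
  · exact ENNReal.ofReal_le_of_le_toReal
      (ciSup_le fun i => (ENNReal.ofReal_le_iff_le_toReal hB).1 (h i))

lemma enorm_Mx_le (γ : ℝ → En n) (ψ : ℝ → ℝ) (f : En n → ℝ) (x : En n) (B : ℝ≥0∞)
    (h : ∀ t : ℝ, 0 < t → ENNReal.ofReal |∫ s : ℝ, ψ s * f (x - t • γ s)| ≤ B) :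
    ‖Mx γ ψ f x‖ₑ ≤ B := by
  have h0 : 0 ≤ Mx γ ψ f x := Real.iSup_nonneg fun t => abs_nonneg _
  rw [Real.enorm_eq_ofReal h0]
  haveI : Nonempty (Ioi (0 : ℝ)) := ⟨⟨1, mem_Ioi.2 one_pos⟩⟩
  exact ofReal_iSup_le _ _ fun t => h t t.2

theorem main_real (hn : 2 ≤ n) (γ : ℝ → En n) (a b : ℝ) (hab : a < b) (hγ : ContDiff ℝ ∞ γ)
    (hnd : ∀ s ∈ Icc a b, LinearIndependent ℝ (fun k : Fin n => iteratedDeriv ((k : ℕ) + 1) γ s))
    (ψ : ℝ → ℝ) (hψ : Continuous ψ) (hsupp : tsupport ψ ⊆ Ioo a b) (p0 p : ℝ)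
    (hp0 : (n : ℝ) < p0) (hp : p0 < p) :
    ∃ C : ℝ≥0∞, C ≠ ⊤ ∧ ∀ (N : ℕ) (f : En n → ℝ), Continuous f → HasCompactSupport f →
      CvxPc N f → eLpNorm (Mx γ ψ f) (ENNReal.ofReal p) volume ≤
        C * (N : ℝ≥0∞) ^ (p0 / p) * eLpNorm f (ENNReal.ofReal p) volume := by
  have hn2 : (2 : ℝ) ≤ n := by exact_mod_cast hn
  have hpp : 0 < p := by linarith
  obtain ⟨c, Γ, hc, hΓ, T, α, β, hT, hcov⟩ := cover hn γ a b hab hγ hnd
  obtain ⟨C, D, hC, hD, H⟩ := piece_bound (n := n) hn c Γ p0 p hc hΓ hp0 hp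
  obtain ⟨B, hB⟩ : ∃ B, ∀ s ∈ Icc a b, ‖ψ s‖ ≤ B :=
    isCompact_Icc.exists_bound_of_continuousOn hψ.continuousOn
  set E : ℝ≥0∞ := ENNReal.ofReal B * D * (T.card : ℝ≥0∞) with hE
  have hEt : E ≠ ⊤ := ENNReal.mul_ne_top (ENNReal.mul_ne_top ENNReal.ofReal_ne_top hD)
    (ENNReal.natCast_ne_top _)
  have hp1 : 0 ≤ 1 / p := by positivity
  refine ⟨E * ((T.card : ℝ≥0∞) * C) ^ (1 / p), ENNReal.mul_ne_top hEt
    (ENNReal.rpow_ne_top_of_nonneg hp1 (ENNReal.mul_ne_top (ENNReal.natCast_ne_top _) hC)), ?_⟩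
  intro N f hf hfc hlev
  have H' : ∀ i ∈ T, ∃ A : En n → ℝ≥0∞, Measurable A ∧
      ∫⁻ x, A x ≤ C * (N : ℝ≥0∞) ^ p0 * ∫⁻ y, ENNReal.ofReal (|f y| ^ p) ∧
        ∀ (x : En n) (t : ℝ), 0 < t →
          ∫⁻ s in Ioo (α i) (β i), ENNReal.ofReal |f (x - t • γ s)| ≤ D * A x ^ (1 / p) :=
    fun i hi => H γ (α i) (β i) (hT i hi) N f hf hfc hlev
  choose! A hA1 hA2 hA3 using H'
  set S : En n → ℝ≥0∞ := fun x => ∑ i ∈ T, A i x with hS
  have hpt : ∀ x, ‖Mx γ ψ f x‖ₑ ≤ E * S x ^ (1 / p) := by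
    intro x
    apply enorm_Mx_le
    intro t ht
    have h1 : ENNReal.ofReal |∫ s : ℝ, ψ s * f (x - t • γ s)| ≤
        ∫⁻ s, ‖ψ s * f (x - t • γ s)‖ₑ := by
      rw [← Real.norm_eq_abs, ofReal_norm_eq_enorm]
      exact enorm_integral_le_lintegral_enorm _
    have h2 : ∀ s, ‖ψ s * f (x - t • γ s)‖ₑ ≤ ∑ i ∈ T, (Ioo (α i) (β i)).indicator
        (fun s => ENNReal.ofReal B * ENNReal.ofReal |f (x - t • γ s)|) s := by
      intro s
      by_cases hs : s ∈ Ioo a b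
      · obtain ⟨i, hi, hsi⟩ := mem_iUnion₂.1 (hcov hs)
        have h3 : ‖ψ s * f (x - t • γ s)‖ₑ ≤
            ENNReal.ofReal B * ENNReal.ofReal |f (x - t • γ s)| := by
          rw [← ofReal_norm_eq_enorm, norm_mul, ENNReal.ofReal_mul (norm_nonneg _),
            Real.norm_eq_abs (f _)]
          gcongr
          exact hB s (Ioo_subset_Icc_self hs)
        calc ‖ψ s * f (x - t • γ s)‖ₑ
            ≤ ENNReal.ofReal B * ENNReal.ofReal |f (x - t • γ s)| := h3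
          _ = (Ioo (α i) (β i)).indicator
              (fun s => ENNReal.ofReal B * ENNReal.ofReal |f (x - t • γ s)|) s := by
              rw [indicator_of_mem hsi]
          _ ≤ _ := Finset.single_le_sum (f := fun i => (Ioo (α i) (β i)).indicator
              (fun s => ENNReal.ofReal B * ENNReal.ofReal |f (x - t • γ s)|) s)
              (fun _ _ => zero_le) hi
      · have h0 : ψ s = 0 := by
          by_contra h0
          exact hs (hsupp (subset_tsupport _ h0))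
        rw [h0, zero_mul, enorm_zero]
        exact zero_le
    have hmeas : Measurable fun s : ℝ => ENNReal.ofReal B * ENNReal.ofReal |f (x - t • γ s)| := by
      have hγc := hγ.continuous
      have : Continuous fun s : ℝ => |f (x - t • γ s)| := by fun_prop
      exact this.measurable.ennreal_ofReal.const_mul _
    calc ENNReal.ofReal |∫ s : ℝ, ψ s * f (x - t • γ s)|
        ≤ ∫⁻ s, ∑ i ∈ T, (Ioo (α i) (β i)).indicator
            (fun s => ENNReal.ofReal B * ENNReal.ofReal |f (x - t • γ s)|) s :=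
          h1.trans (lintegral_mono h2)
      _ = ∑ i ∈ T, ∫⁻ s in Ioo (α i) (β i),
            ENNReal.ofReal B * ENNReal.ofReal |f (x - t • γ s)| := by
          rw [lintegral_finsetSum _ fun i _ => hmeas.indicator measurableSet_Ioo]
          refine Finset.sum_congr rfl fun i _ => ?_
          rw [lintegral_indicator measurableSet_Ioo]
      _ ≤ ∑ i ∈ T, ENNReal.ofReal B * (D * S x ^ (1 / p)) := by
          apply Finset.sum_le_sum
          intro i hi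
          rw [lintegral_const_mul' _ _ ENNReal.ofReal_ne_top]
          gcongr
          refine (hA3 i hi x t ht).trans ?_
          gcongr
          exact Finset.single_le_sum (f := fun i => A i x) (fun _ _ => zero_le) hi
      _ = E * S x ^ (1 / p) := by
          rw [Finset.sum_const, nsmul_eq_mul, hE]
          ring
  have hSm : Measurable S := Finset.measurable_sum _ fun i hi => hA1 i hi
  have hSi : ∫⁻ x, S x ≤ (T.card : ℝ≥0∞) * C * (N : ℝ≥0∞) ^ p0 * ∫⁻ y, ‖f y‖ₑ ^ p := by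
    have h3 : ∫⁻ y, ENNReal.ofReal (|f y| ^ p) = ∫⁻ y, ‖f y‖ₑ ^ p := by
      congr 1
      funext y
      rw [← ENNReal.ofReal_rpow_of_nonneg (abs_nonneg _) hpp.le, ← Real.norm_eq_abs,
        ofReal_norm_eq_enorm]
    rw [lintegral_finsetSum' _ fun i hi => (hA1 i hi).aemeasurable]
    calc ∑ i ∈ T, ∫⁻ x, A i x ≤ ∑ i ∈ T, C * (N : ℝ≥0∞) ^ p0 * ∫⁻ y, ENNReal.ofReal (|f y| ^ p) :=
          Finset.sum_le_sum fun i hi => hA2 i hi
      _ = _ := by
          rw [Finset.sum_const, nsmul_eq_mul, h3]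
          ring
  have hq0 : ENNReal.ofReal p ≠ 0 := by
    rw [Ne, ENNReal.ofReal_eq_zero]
    linarith
  have hqt : (ENNReal.ofReal p).toReal = p := ENNReal.toReal_ofReal hpp.le
  rw [eLpNorm_eq_lintegral_rpow_enorm_toReal hq0 ENNReal.ofReal_ne_top,
    eLpNorm_eq_lintegral_rpow_enorm_toReal hq0 ENNReal.ofReal_ne_top, hqt]
  calc (∫⁻ x, ‖Mx γ ψ f x‖ₑ ^ p) ^ (1 / p)
      ≤ (∫⁻ x, (E * S x ^ (1 / p)) ^ p) ^ (1 / p) := by
        gcongr with x
        exact hpt x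
    _ = (E ^ p * ∫⁻ x, S x) ^ (1 / p) := by
        have h4 : ∀ x, (E * S x ^ (1 / p)) ^ p = E ^ p * S x := by
          intro x
          rw [ENNReal.mul_rpow_of_nonneg _ _ hpp.le, ← ENNReal.rpow_mul, one_div,
            inv_mul_cancel₀ hpp.ne', ENNReal.rpow_one]
        simp only [h4]
        rw [lintegral_const_mul _ hSm]
    _ ≤ (E ^ p * ((T.card : ℝ≥0∞) * C * (N : ℝ≥0∞) ^ p0 * ∫⁻ y, ‖f y‖ₑ ^ p)) ^ (1 / p) := by
        gcongr
    _ = E * ((T.card : ℝ≥0∞) * C) ^ (1 / p) * (N : ℝ≥0∞) ^ (p0 / p) *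
          (∫⁻ x, ‖f x‖ₑ ^ p) ^ (1 / p) := by
        rw [ENNReal.mul_rpow_of_nonneg _ _ hp1, ENNReal.mul_rpow_of_nonneg _ _ hp1,
          ENNReal.mul_rpow_of_nonneg _ _ hp1, ← ENNReal.rpow_mul, ← ENNReal.rpow_mul,
          mul_one_div_cancel hpp.ne', ENNReal.rpow_one, mul_one_div]
        ring

lemma enorm_le_top_norm (f : En n → ℝ) (hf : Continuous f) (y : En n) :
    ‖f y‖ₑ ≤ eLpNorm f ⊤ volume := by
  rw [eLpNorm_exponent_top]
  have h1 : ∀ᵐ y ∂(volume : Measure (En n)), ‖f y‖ₑ ≤ eLpNormEssSup f volume :=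
    ae_le_eLpNormEssSup
  have h2 : Dense {y | ‖f y‖ₑ ≤ eLpNormEssSup f volume} := Measure.dense_of_ae h1
  have h3 : IsClosed {y | ‖f y‖ₑ ≤ eLpNormEssSup f volume} :=
    isClosed_le hf.enorm continuous_const
  have h4 := h2.closure_eq
  rw [h3.closure_eq] at h4
  have : y ∈ {y | ‖f y‖ₑ ≤ eLpNormEssSup f volume} := by
    rw [h4]
    trivial
  exact this

theorem main_top (γ : ℝ → En n) (a b : ℝ)
    (ψ : ℝ → ℝ) (hψ : Continuous ψ) (hsupp : tsupport ψ ⊆ Ioo a b) :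
    ∃ C : ℝ≥0∞, C ≠ ⊤ ∧ ∀ f : En n → ℝ, Continuous f →
      eLpNorm (Mx γ ψ f) ⊤ volume ≤ C * eLpNorm f ⊤ volume := by
  have hψc : HasCompactSupport ψ :=
    isCompact_Icc.of_isClosed_subset (isClosed_tsupport _) (hsupp.trans Ioo_subset_Icc_self)
  have hψi : Integrable ψ volume := hψ.integrable_of_hasCompactSupport hψc
  refine ⟨∫⁻ s, ‖ψ s‖ₑ, hψi.2.ne, ?_⟩
  intro f hf
  rw [eLpNorm_exponent_top (f := Mx γ ψ f)]
  apply eLpNormEssSup_le_of_ae_enorm_bound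
  refine Eventually.of_forall fun x => ?_
  apply enorm_Mx_le
  intro t ht
  calc ENNReal.ofReal |∫ s : ℝ, ψ s * f (x - t • γ s)|
      ≤ ∫⁻ s, ‖ψ s * f (x - t • γ s)‖ₑ := by
        rw [← Real.norm_eq_abs, ofReal_norm_eq_enorm]
        exact enorm_integral_le_lintegral_enorm _
    _ ≤ ∫⁻ s, ‖ψ s‖ₑ * eLpNorm f ⊤ volume := by
        apply lintegral_mono
        intro s
        show ‖ψ s * f (x - t • γ s)‖ₑ ≤ ‖ψ s‖ₑ * eLpNorm f ⊤ volume
        rw [enorm_mul]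
        exact mul_le_mul' le_rfl (enorm_le_top_norm f hf _)
    _ = (∫⁻ s, ‖ψ s‖ₑ) * eLpNorm f ⊤ volume :=
        lintegral_mul_const _ hψ.enorm.measurable

end Pool.Agent.MC
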