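import Mathlib

/-!
Elementary facts on convex sets: difference body, width, volumes.
-/

open MeasureTheory Set Filter Topology Metric
open scoped ENNReal Pointwise RealInnerProductSpace

namespace Pool.Agent.MC

/-- Euclidean space. -/
abbrev En (n : ℕ) := EuclideanSpace ℝ (Fin n)

variable {n : ℕ}

lemma diff_open {K : Set (En n)} (hK : IsOpen K) : IsOpen (K - K) := hK.sub_right

lemma diff_convex {K : Set (En n)} (hK : Convex ℝ K) : Convex ℝ (K - K) := hK.sub hK

lemma zero_mem_diff {K : Set (En n)} (hK : K.Nonempty) : (0 : En n) ∈ K - K := by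
  obtain ⟨y, hy⟩ := hK
  exact ⟨y, hy, y, hy, sub_self y⟩

/-- The inradius of the difference body and the width. -/
theorem exists_width {K : Set (En n)} (hn : 0 < n) (hK : IsOpen K) (hc : Convex ℝ K)
    (hne : K.Nonempty) (hb : Bornology.IsBounded K) :
    ∃ r : ℝ, 0 < r ∧ ball (0 : En n) r ⊆ K - K ∧
      ∃ e : En n, ‖e‖ = 1 ∧ ∀ y ∈ K, ∀ y' ∈ K, |⟪e, y⟫ - ⟪e, y'⟫| ≤ 2 * r := by
  have hDo := diff_open hK
  have hDc := diff_convex hc
  have hD0 := zero_mem_diff hne
  have hDb : Bornology.IsBounded (K - K) := hb.sub hb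
  obtain ⟨r0, hr0, hball0⟩ := Metric.isOpen_iff.1 hDo 0 hD0
  obtain ⟨R, hR⟩ := hDb.subset_ball (0 : En n)
  have hex : ∃ r : ℝ, 0 < r ∧ ball (0 : En n) r ⊆ K - K ∧ ¬ ball (0 : En n) (2 * r) ⊆ K - K := by
    by_contra hcon
    push Not at hcon
    have hall : ∀ k : ℕ, ball (0 : En n) (2 ^ k * r0) ⊆ K - K := by
      intro k
      induction k with
      | zero => simpa using hball0
      | succ k ih =>
        have := hcon (2 ^ k * r0) (by positivity) ih
        rwa [show 2 * (2 ^ k * r0) = 2 ^ (k + 1) * r0 by ring] at this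
    obtain ⟨k, hk⟩ := pow_unbounded_of_one_lt ((|R| + 1) / r0) (by norm_num : (1 : ℝ) < 2)
    rw [div_lt_iff₀ hr0] at hk
    have : Nonempty (Fin n) := ⟨⟨0, hn⟩⟩
    obtain ⟨v, hv⟩ := exists_norm_eq (En n) (by positivity : 0 ≤ |R| + 1)
    have hv1 : v ∈ ball (0 : En n) (2 ^ k * r0) := by
      rw [mem_ball_zero_iff, hv]; exact hk
    have hv2 := hR (hall k hv1)
    rw [mem_ball_zero_iff, hv] at hv2
    linarith [le_abs_self R]
  obtain ⟨r, hr, hball, hnot⟩ := hex
  refine ⟨r, hr, hball, ?_⟩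
  obtain ⟨v, hv, hvD⟩ := not_subset.1 hnot
  obtain ⟨f, hf⟩ := geometric_hahn_banach_open_point hDc hDo hvD
  set w := (InnerProductSpace.toDual ℝ (En n)).symm f with hw
  have hfw : ∀ y, f y = ⟪w, y⟫ := by
    intro y
    rw [hw]
    exact (InnerProductSpace.toDual_symm_apply).symm
  have hfv : 0 < f v := by
    have := hf 0 hD0
    rwa [map_zero] at this
  have hw0 : w ≠ 0 := by
    intro h0
    rw [hfw, h0, inner_zero_left] at hfv
    exact lt_irrefl _ hfv
  have hwn : 0 < ‖w‖ := norm_pos_iff.2 hw0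
  have hvn : f v < ‖w‖ * (2 * r) := by
    rw [hfw]
    refine (real_inner_le_norm _ _).trans_lt ?_
    rw [mem_ball_zero_iff] at hv
    exact mul_lt_mul_of_pos_left hv hwn
  have hkey : ∀ y ∈ K, ∀ y' ∈ K, ⟪w, y⟫ - ⟪w, y'⟫ ≤ ‖w‖ * (2 * r) := by
    intro y hy y' hy'
    have h1 := hf (y - y') ⟨y, hy, y', hy', rfl⟩
    rw [hfw, inner_sub_right] at h1
    linarith
  refine ⟨‖w‖⁻¹ • w, ?_, ?_⟩
  · rw [norm_smul, norm_inv, norm_norm, inv_mul_cancel₀ hwn.ne']
  · intro y hy y' hy'
    rw [real_inner_smul_left, real_inner_smul_left, ← mul_sub, abs_mul, abs_inv, abs_norm,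
      inv_mul_le_iff₀ hwn]
    exact abs_le.2 ⟨by linarith [hkey y' hy' y hy], hkey y hy y' hy'⟩

/-- The volume of the difference body. -/
theorem volume_diff_le {K : Set (En n)} (hK : IsOpen K) (hc : Convex ℝ K)
    (hne : K.Nonempty) (hb : Bornology.IsBounded K) :
    volume (K - K) ≤ 4 ^ n * volume K := by
  have hKm := hK.measurableSet
  have hV0 : volume K ≠ 0 := (hK.measure_pos volume hne).ne'
  have hVt : volume K ≠ ⊤ := hb.measure_lt_top.ne
  -- the correlation integral
  have hcor : ∫⁻ x, volume (K ∩ {y | y - x ∈ K}) = volume K * volume K := by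
    have h1 : ∀ x, volume (K ∩ {y | y - x ∈ K})
        = ∫⁻ y, K.indicator 1 y * K.indicator (1 : En n → ℝ≥0∞) (y - x) := by
      intro x
      have hm : MeasurableSet (K ∩ {y | y - x ∈ K}) :=
        hKm.inter (measurable_id.sub_const x hKm)
      rw [← lintegral_indicator_one hm]
      congr 1
      funext y
      by_cases hy : y ∈ K
      · by_cases hyx : y - x ∈ K
        · rw [indicator_of_mem (show y ∈ K ∩ {y | y - x ∈ K} from ⟨hy, hyx⟩),
            indicator_of_mem hy, indicator_of_mem hyx]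
          simp
        · rw [indicator_of_notMem (fun h => hyx h.2), indicator_of_notMem hyx, mul_zero]
      · rw [indicator_of_notMem (fun h => hy h.1), indicator_of_notMem hy, zero_mul]
    simp only [h1]
    have hm2 : Measurable (K.indicator (1 : En n → ℝ≥0∞)) := measurable_one.indicator hKm
    rw [lintegral_lintegral_swap]
    · have h2 : ∀ y, ∫⁻ x, K.indicator 1 y * K.indicator (1 : En n → ℝ≥0∞) (y - x)
          = K.indicator 1 y * volume K := by
        intro y
        have hm3 : Measurable fun x : En n => K.indicator (1 : En n → ℝ≥0∞) (y - x) :=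
          hm2.comp (measurable_const.sub measurable_id)
        rw [lintegral_const_mul _ hm3,
          lintegral_sub_left_eq_self (μ := volume) (K.indicator (1 : En n → ℝ≥0∞)) y,
          lintegral_indicator_one hKm]
      simp only [h2]
      rw [lintegral_mul_const _ hm2, lintegral_indicator_one hKm]
    · exact ((hm2.comp measurable_snd).mul
        (hm2.comp (measurable_snd.sub measurable_fst))).aemeasurable
  -- lower bound on the half of the difference body
  have hlow : ∀ x ∈ (2⁻¹ : ℝ) • (K - K),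
      ENNReal.ofReal (2⁻¹ ^ n) * volume K ≤ volume (K ∩ {y | y - x ∈ K}) := by
    rintro x ⟨d, ⟨a, ha, b, hb', rfl⟩, rfl⟩
    have hsub : (2⁻¹ : ℝ) • ((fun z => z + a) '' K) ⊆ K ∩ {y | y - (2⁻¹ : ℝ) • (a - b) ∈ K} := by
      rintro y ⟨w, ⟨k, hk, rfl⟩, rfl⟩
      have h2 : (2⁻¹ : ℝ) + 2⁻¹ = 1 := by norm_num
      constructor
      · have := hc hk ha (by norm_num : (0 : ℝ) ≤ 2⁻¹) (by norm_num : (0 : ℝ) ≤ 2⁻¹) h2
        simpa [smul_add] using this
      · have := hc hk hb' (by norm_num : (0 : ℝ) ≤ 2⁻¹) (by norm_num : (0 : ℝ) ≤ 2⁻¹) h2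
        have e : (2⁻¹ : ℝ) • (k + a) - (2⁻¹ : ℝ) • (a - b) = (2⁻¹ : ℝ) • k + (2⁻¹ : ℝ) • b := by
          module
        show (2⁻¹ : ℝ) • (k + a) - (2⁻¹ : ℝ) • (a - b) ∈ K
        rw [e]
        exact this
    refine le_trans (le_of_eq ?_) (measure_mono hsub)
    rw [Measure.addHaar_smul, finrank_euclideanSpace, Fintype.card_fin]
    have : volume ((fun z => z + a) '' K) = volume K := by
      rw [image_add_right, measure_preimage_add_right]
    rw [this, abs_of_pos (by positivity)]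
  have hDm : MeasurableSet ((2⁻¹ : ℝ) • (K - K)) :=
    (IsOpen.smul₀ (diff_open hK) (by norm_num)).measurableSet
  have h3 : ENNReal.ofReal (2⁻¹ ^ n) * volume K * volume ((2⁻¹ : ℝ) • (K - K))
      ≤ volume K * volume K := by
    rw [← hcor, ← setLIntegral_const]
    exact (setLIntegral_mono' hDm hlow).trans (setLIntegral_le_lintegral _ _)
  rw [Measure.addHaar_smul, finrank_euclideanSpace, Fintype.card_fin,
    abs_of_pos (by positivity)] at h3
  have h4 : ENNReal.ofReal (2⁻¹ ^ n) * volume K * (ENNReal.ofReal (2⁻¹ ^ n) * volume (K - K))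
      = volume K * (ENNReal.ofReal (4⁻¹ ^ n) * volume (K - K)) := by
    have : ENNReal.ofReal (4⁻¹ ^ n) = ENNReal.ofReal (2⁻¹ ^ n) * ENNReal.ofReal (2⁻¹ ^ n) := by
      rw [← ENNReal.ofReal_mul (by positivity), ← mul_pow]
      norm_num
    rw [this]; ring
  rw [h4] at h3
  have h5 : ENNReal.ofReal (4⁻¹ ^ n) * volume (K - K) ≤ volume K :=
    (ENNReal.mul_le_mul_iff_right hV0 hVt).1 h3
  have h6 : (4 : ℝ≥0∞) ^ n * ENNReal.ofReal (4⁻¹ ^ n) = 1 := by
    have : (4 : ℝ≥0∞) ^ n = ENNReal.ofReal (4 ^ n) := by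
      rw [ENNReal.ofReal_pow (by norm_num)]; norm_num
    rw [this, ← ENNReal.ofReal_mul (by positivity), ← mul_pow]
    norm_num
  calc volume (K - K) = (4 ^ n * ENNReal.ofReal (4⁻¹ ^ n)) * volume (K - K) := by
        rw [h6, one_mul]
    _ = 4 ^ n * (ENNReal.ofReal (4⁻¹ ^ n) * volume (K - K)) := by ring
    _ ≤ 4 ^ n * volume K := by gcongr

/-- The dilated difference body about a point of `K`. -/
def dil (K : Set (En n)) (y0 : En n) (c : ℝ) : Set (En n) := {x | x - y0 ∈ c • (K - K)}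

lemma isOpen_dil {K : Set (En n)} (hK : IsOpen K) (y0 : En n) {c : ℝ} (hc : 0 < c) :
    IsOpen (dil K y0 c) :=
  ((diff_open hK).smul₀ hc.ne').preimage (continuous_id.sub continuous_const)

lemma volume_dil_le {K : Set (En n)} (hK : IsOpen K) (hc : Convex ℝ K)
    (hne : K.Nonempty) (hb : Bornology.IsBounded K) (y0 : En n) {c : ℝ} (hc0 : 0 < c) :
    volume (dil K y0 c) ≤ ENNReal.ofReal ((4 * c) ^ n) * volume K := by
  have h1 : dil K y0 c = (fun x => x + -y0) ⁻¹' (c • (K - K)) := by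
    ext x; simp only [dil, mem_setOf_eq, mem_preimage, sub_eq_add_neg]
  rw [h1, measure_preimage_add_right, Measure.addHaar_smul, finrank_euclideanSpace,
    Fintype.card_fin, abs_of_pos (by positivity), mul_pow, ENNReal.ofReal_mul (by positivity),
    ENNReal.ofReal_pow (by norm_num : (0 : ℝ) ≤ 4), ENNReal.ofReal_ofNat]
  calc ENNReal.ofReal (c ^ n) * volume (K - K) ≤ ENNReal.ofReal (c ^ n) * (4 ^ n * volume K) := by
        gcongr
        exact volume_diff_le hK hc hne hb
    _ = 4 ^ n * ENNReal.ofReal (c ^ n) * volume K := by ring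

lemma add_diff_subset {K : Set (En n)} (hc : Convex ℝ K) {y0 : En n} (hy0 : y0 ∈ K) {c : ℝ}
    (hc0 : 0 ≤ c) {y d : En n} (hy : y ∈ K) (hd : d ∈ c • (K - K)) : y + d ∈ dil K y0 (1 + c) := by
  show y + d - y0 ∈ (1 + c) • (K - K)
  rw [(diff_convex hc).add_smul zero_le_one hc0, one_smul]
  refine ⟨y - y0, ⟨y, hy, y0, hy0, rfl⟩, d, hd, ?_⟩
  show y - y0 + d = y + d - y0
  abel

lemma mem_smul_diff {K : Set (En n)} {r c : ℝ} (hc : 0 < c)
    (hball : ball (0 : En n) r ⊆ K - K) {d : En n} (hd : ‖d‖ < c * r) : d ∈ c • (K - K) := by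
  refine ⟨c⁻¹ • d, hball ?_, ?_⟩
  · rw [mem_ball_zero_iff, norm_smul, norm_inv, Real.norm_eq_abs, abs_of_pos hc,
      inv_mul_lt_iff₀ hc]
    exact hd
  · show c • c⁻¹ • d = d
    rw [smul_smul, mul_inv_cancel₀ hc.ne', one_smul]

end Pool.Agent.MC
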