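import Pool.Agent.Lib_helper71.MC.OneDim

/-!
One-dimensional estimates, uniform in the order of the derivative.
-/

open MeasureTheory Set Filter Topology
open scoped ENNReal ContDiff

namespace Pool.Agent.MC

/-- One of the derivatives of order `1, ..., n` is bounded below by `c` in absolute value. -/
def FT (n : ℕ) (c : ℝ) (g : ℝ → ℝ) (α β : ℝ) : Prop :=
  ∃ k < n, (∀ s ∈ Ioo α β, c ≤ iteratedDeriv (k + 1) g s) ∨
    (∀ s ∈ Ioo α β, iteratedDeriv (k + 1) g s ≤ -c)

theorem unif_const (n : ℕ) : ∃ C : ℝ, 1 ≤ C ∧ ∀ k < n, ∀ h : ℝ → ℝ, ContDiff ℝ ∞ h →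
    ∀ α β c : ℝ, 0 < c → ((∀ s ∈ Ioo α β, c ≤ iteratedDeriv (k + 1) h s) ∨
      (∀ s ∈ Ioo α β, iteratedDeriv (k + 1) h s ≤ -c)) →
      ∀ lam τ : ℝ, 0 ≤ τ →
        volume.real {s | s ∈ Ioo α β ∧ |h s - lam| ≤ τ} ^ (k + 1) ≤ C * τ / c := by
  choose C hC H using sublevel'
  refine ⟨1 + ∑ k ∈ Finset.range n, C k, ?_, ?_⟩
  · have : 0 ≤ ∑ k ∈ Finset.range n, C k := Finset.sum_nonneg fun k _ => (hC k).le
    linarith
  · intro k hk h hh α β c hc hd lam τ hτ
    refine (H k h hh α β c hc hd lam τ hτ).trans ?_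
    have : C k ≤ ∑ k ∈ Finset.range n, C k :=
      Finset.single_le_sum (f := C) (fun k _ => (hC k).le) (Finset.mem_range.2 hk)
    have h2 : C k ≤ 1 + ∑ k ∈ Finset.range n, C k := by linarith
    gcongr

/-- Sets on which the function has small oscillation. -/
theorem oneD1 (n : ℕ) (c : ℝ) (hc : 0 < c) : ∃ C : ℝ, 1 ≤ C ∧
    ∀ g : ℝ → ℝ, ContDiff ℝ ∞ g → ∀ α β : ℝ, FT n c g α β →
      ∀ σ ρ : ℝ, 0 < σ → σ ≤ 1 → 0 < ρ → ∀ T ⊆ Ioo α β, (∀ s ∈ T, ∀ s' ∈ T, |g s - g s'| ≤ ρ) →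
        ENNReal.ofReal σ < volume T → σ ^ n ≤ C * ρ ∧
          ENNReal.ofReal (σ / 2) ≤ volume (T ∩ {s | |deriv g s| ≤ 2 ^ n * ρ / σ}) := by
  obtain ⟨C, hC, H⟩ := unif_const n
  refine ⟨max 1 (C / c), le_max_left _ _, ?_⟩
  intro g hg α β hft σ ρ hσ hσ1 hρ T hT hosc hvol
  obtain ⟨k, hk, hd⟩ := hft
  constructor
  · have hne : T.Nonempty := by
      rw [nonempty_iff_ne_empty]
      intro h0
      rw [h0, measure_empty] at hvol
      exact not_lt_zero hvol
    obtain ⟨s0, hs0⟩ := hne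
    have h1 := H k hk g hg α β c hc hd (g s0) ρ hρ.le
    have hsub : T ⊆ {s | s ∈ Ioo α β ∧ |g s - g s0| ≤ ρ} := fun s hs => ⟨hT hs, hosc s hs s0 hs0⟩
    have hfin : volume {s | s ∈ Ioo α β ∧ |g s - g s0| ≤ ρ} ≠ ⊤ :=
      ((measure_mono (fun s hs => hs.1)).trans_lt (measure_Ioo_lt_top (a := α) (b := β))).ne
    have h2 : σ ≤ volume.real {s | s ∈ Ioo α β ∧ |g s - g s0| ≤ ρ} := by
      have h3 := hvol.le.trans (measure_mono hsub)
      rwa [← ENNReal.ofReal_toReal hfin,
        ENNReal.ofReal_le_ofReal_iff ENNReal.toReal_nonneg] at h3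
    calc σ ^ n ≤ σ ^ (k + 1) := pow_le_pow_of_le_one hσ.le hσ1 (by omega)
      _ ≤ volume.real {s | s ∈ Ioo α β ∧ |g s - g s0| ≤ ρ} ^ (k + 1) :=
          pow_le_pow_left₀ hσ.le h2 _
      _ ≤ C * ρ / c := h1
      _ = C / c * ρ := by ring
      _ ≤ max 1 (C / c) * ρ := by gcongr; exact le_max_right _ _
  · have hτ : 0 < 2 ^ n * ρ / σ := by positivity
    have h1 : volume (T ∩ {s | 2 ^ n * ρ / σ < |deriv g s|})
        ≤ ENNReal.ofReal (2 ^ k * ρ / (2 ^ n * ρ / σ)) := by
      rcases hd with hd | hd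
      · exact pieces k g hg α β (fun s hs => hc.le.trans (hd s hs)) ρ _ hρ.le hτ T hT hosc
      · have := pieces k (fun x => -g x) hg.neg α β (fun s hs => by
          have h3 : iteratedDeriv (k + 1) (fun x => -g x) s = -iteratedDeriv (k + 1) g s := by
            have := iteratedDeriv_fun_neg (k + 1) g s
            simpa using this
          rw [h3]
          linarith [hd s hs]) ρ _ hρ.le hτ T hT (fun s hs s' hs' => by
            have := hosc s hs s' hs'
            rw [show -g s - -g s' = -(g s - g s') by ring, abs_neg]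
            exact this)
        have hder : ∀ s, |deriv (fun x => -g x) s| = |deriv g s| := by
          intro s
          rw [deriv.fun_neg, abs_neg]
        simpa only [hder] using this
    have h2 : 2 ^ k * ρ / (2 ^ n * ρ / σ) ≤ σ / 2 := by
      rw [div_div_eq_mul_div, div_le_div_iff₀ (by positivity) (by norm_num)]
      have h3 : (2 : ℝ) ^ k * 2 ≤ 2 ^ n := by
        rw [← pow_succ]
        exact pow_le_pow_right₀ (by norm_num) (by omega)
      nlinarith [mul_pos hρ hσ]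
    have h3 : volume (T ∩ {s | 2 ^ n * ρ / σ < |deriv g s|}) ≤ ENNReal.ofReal (σ / 2) :=
      h1.trans (ENNReal.ofReal_le_ofReal h2)
    by_contra hcon
    rw [not_le] at hcon
    have hcover : T ⊆ (T ∩ {s | |deriv g s| ≤ 2 ^ n * ρ / σ}) ∪
        (T ∩ {s | 2 ^ n * ρ / σ < |deriv g s|}) := by
      intro s hs
      rcases le_or_gt (|deriv g s|) (2 ^ n * ρ / σ) with h | h
      · exact Or.inl ⟨hs, h⟩
      · exact Or.inr ⟨hs, h⟩
    have h4 : volume T < ENNReal.ofReal (σ / 2) + ENNReal.ofReal (σ / 2) :=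
      ((measure_mono hcover).trans (measure_union_le _ _)).trans_lt
        (ENNReal.add_lt_add_of_lt_of_le (h3.trans_lt ENNReal.ofReal_lt_top).ne hcon h3)
    rw [← ENNReal.ofReal_add (by positivity) (by positivity), add_halves] at h4
    exact absurd hvol (not_lt.2 h4.le)

/-- The size of the set where the derivative is small. -/
theorem oneD2 (n : ℕ) (hn : 2 ≤ n) (c M : ℝ) (hc : 0 < c) (hM : 1 ≤ M) : ∃ C : ℝ, 1 ≤ C ∧
    ∀ g : ℝ → ℝ, ContDiff ℝ ∞ g → ∀ α β : ℝ, β - α ≤ 1 → FT n c g α β →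
      ∀ σ ρ : ℝ, 0 < σ → σ ≤ 1 → 0 < ρ → σ ^ n ≤ M * ρ →
        volume.real {s | s ∈ Ioo α β ∧ |deriv g s| ≤ 2 ^ n * ρ / σ} * σ ^ (n - 1) ≤ C * ρ := by
  obtain ⟨C, hC, H⟩ := unif_const n
  set D := 1 + C * 2 ^ n / c with hD
  have hD1 : 1 ≤ D := by
    have : 0 ≤ C * 2 ^ n / c := by positivity
    linarith
  set C2 := D * M ^ n with hC2
  have hMn : 1 ≤ M ^ n := one_le_pow₀ hM
  have hC21 : 1 ≤ C2 := by nlinarith
  refine ⟨C2, hC21, ?_⟩
  intro g hg α β hlen hft σ ρ hσ hσ1 hρ hσρ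
  obtain ⟨k, hk, hd⟩ := hft
  set τ := 2 ^ n * ρ / σ with hτ
  have hτ0 : 0 < τ := by positivity
  set X := volume.real {s | s ∈ Ioo α β ∧ |deriv g s| ≤ τ} with hX
  have hX0 : 0 ≤ X := measureReal_nonneg
  rcases Nat.eq_zero_or_pos k with hk0 | hkpos
  · -- the first derivative
    subst hk0
    have habs : ∀ s ∈ Ioo α β, c ≤ |deriv g s| := by
      intro s hs
      rcases hd with hd | hd
      · have := hd s hs
        rw [zero_add, iteratedDeriv_one] at this
        exact this.trans (le_abs_self _)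
      · have := hd s hs
        rw [zero_add, iteratedDeriv_one] at this
        exact (by linarith : c ≤ -deriv g s).trans (neg_le_abs _)
    rcases lt_or_ge τ c with h | h
    · have : {s | s ∈ Ioo α β ∧ |deriv g s| ≤ τ} = ∅ := by
        ext s
        simp only [mem_setOf_eq, mem_empty_iff_false, iff_false, not_and, not_le]
        intro hs
        exact h.trans_le (habs s hs)
      rw [hX, this, measureReal_empty, zero_mul]
      positivity
    · have h1 : σ ≤ 2 ^ n * ρ / c := by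
        rw [hτ, le_div_iff₀ hσ] at h
        rw [le_div_iff₀ hc]
        linarith
      have hX1 : X ≤ 1 := by
        have h2 : X ≤ volume.real (Ioo α β) :=
          measureReal_mono (fun s hs => hs.1) measure_Ioo_lt_top.ne
        rw [Real.volume_real_Ioo] at h2
        exact h2.trans (max_le hlen zero_le_one)
      have h3 : σ ^ (n - 1) ≤ σ := by
        calc σ ^ (n - 1) ≤ σ ^ 1 := pow_le_pow_of_le_one hσ.le hσ1 (by omega)
          _ = σ := pow_one σ
      calc X * σ ^ (n - 1) ≤ 1 * σ := by gcongr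
        _ ≤ 2 ^ n * ρ / c := by rw [one_mul]; exact h1
        _ = 1 * 2 ^ n / c * ρ := by ring
        _ ≤ C * 2 ^ n / c * ρ := by gcongr
        _ ≤ D * ρ := by gcongr; linarith
        _ ≤ C2 * ρ := by gcongr; nlinarith
  · -- higher derivatives
    obtain ⟨l, rfl⟩ : ∃ l, k = l + 1 := ⟨k - 1, by omega⟩
    have hgd := (contDiff_infty_iff_deriv.1 hg).2
    have hX2 := H l (by omega) (deriv g) hgd α β c hc (by
      rw [iteratedDeriv_succ'] at hd
      exact hd) 0 τ hτ0.le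
    simp only [sub_zero] at hX2
    rw [← hX] at hX2
    have h1 : X ^ (l + 1) * σ ≤ D * ρ := by
      have e : C * τ / c * σ = C * 2 ^ n / c * ρ := by
        rw [hτ]; field_simp
      calc X ^ (l + 1) * σ ≤ C * τ / c * σ := by gcongr
        _ = C * 2 ^ n / c * ρ := e
        _ ≤ D * ρ := by gcongr; linarith
    -- compare the powers
    have h2 : (X * σ ^ (n - 1)) ^ (l + 1) ≤ (C2 * ρ) ^ (l + 1) := by
      have e1 : (X * σ ^ (n - 1)) ^ (l + 1) = (X ^ (l + 1) * σ) * σ ^ ((n - 1) * (l + 1) - 1) := by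
        rw [mul_pow, ← pow_mul, mul_assoc, ← pow_succ' σ]
        congr 2
        have : 1 ≤ (n - 1) * (l + 1) := Nat.one_le_iff_ne_zero.2 (by
          apply Nat.mul_ne_zero <;> omega)
        omega
      have e2 : (n - 1) * (l + 1) - 1 = n * l + (n - l - 2) := by
        obtain ⟨d, rfl⟩ : ∃ d, n = l + 2 + d := ⟨n - (l + 2), by omega⟩
        have : l + 2 + d - 1 = l + 1 + d := by omega
        rw [this]
        have : l + 2 + d - l - 2 = d := by omega
        rw [this]
        have h5 : (l + 1 + d) * (l + 1) = (l + 2 + d) * l + d + 1 := by ring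
        rw [h5]; omega
      have e3 : σ ^ ((n - 1) * (l + 1) - 1) ≤ (M * ρ) ^ l := by
        rw [e2, pow_add, pow_mul]
        calc (σ ^ n) ^ l * σ ^ (n - l - 2) ≤ (σ ^ n) ^ l * 1 := by
              gcongr; exact pow_le_one₀ hσ.le hσ1
          _ ≤ (M * ρ) ^ l := by
              rw [mul_one]
              exact pow_le_pow_left₀ (by positivity) hσρ _
      rw [e1]
      calc X ^ (l + 1) * σ * σ ^ ((n - 1) * (l + 1) - 1) ≤ D * ρ * (M * ρ) ^ l := by gcongr
        _ = D * M ^ l * ρ ^ (l + 1) := by rw [mul_pow]; ring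
        _ ≤ D * M ^ n * ρ ^ (l + 1) := by
            have : M ^ l ≤ M ^ n := pow_le_pow_right₀ hM (by omega)
            gcongr
        _ = C2 * ρ ^ (l + 1) := by rw [hC2]
        _ ≤ C2 ^ (l + 1) * ρ ^ (l + 1) := by
            have : C2 ≤ C2 ^ (l + 1) := le_self_pow₀ hC21 (by omega)
            gcongr
        _ = (C2 * ρ) ^ (l + 1) := (mul_pow C2 ρ (l + 1)).symm
    exact le_of_pow_le_pow_left₀ (by omega) (by positivity) h2

end Pool.Agent.MC
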