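import Pool.Agent.Lib_helper71.MC.FinType
import Pool.Agent.Lib_helper71.MC.OneDim2

/-!
The maximal estimate for a convex set and a short piece of the curve: one dyadic scale.
-/

open MeasureTheory Set Filter Topology Metric
open scoped ENNReal Pointwise RealInnerProductSpace ContDiff

namespace Pool.Agent.MC

variable {n : ℕ}

/-- The parameters of the points of the dilated curve that lie in `K`. -/
def Sl (γ : ℝ → En n) (α β : ℝ) (K : Set (En n)) (x : En n) (t : ℝ) : Set ℝ :=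
  {s | s ∈ Ioo α β ∧ x - t • γ s ∈ K}

/-- A short piece of a nondegenerate curve. -/
structure Piece (n : ℕ) (γ : ℝ → En n) (α β c Γ : ℝ) : Prop where
  smooth : ContDiff ℝ ∞ γ
  len : β - α ≤ 1
  ft : ∀ e : En n, ‖e‖ = 1 → FT n c (fun s => ⟪e, γ s⟫) α β
  bound : ∀ s ∈ Ioo α β, ‖γ s‖ < Γ
  one_le : 1 ≤ Γ
  pos : 0 < c

lemma isOpen_Sl {γ : ℝ → En n} (hγ : Continuous γ) {α β : ℝ} {K : Set (En n)} (hK : IsOpen K)
    (x : En n) (t : ℝ) : IsOpen (Sl γ α β K x t) :=
  isOpen_Ioo.inter (hK.preimage (by fun_prop : Continuous fun s => x - t • γ s))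

/-- The time spent in `B` by the curves with parameter `t ∈ [R, 3R]`, `s ∈ A`. -/
noncomputable def Gf (γ : ℝ → En n) (A : Set ℝ) (B : Set (En n)) (R : ℝ) (x : En n) : ℝ≥0∞ :=
  ∫⁻ q : ℝ × ℝ, B.indicator 1 (x - q.1 • γ q.2)
    ∂((volume.restrict (Icc R (3 * R))).prod (volume.restrict A))

lemma measurable_ind {γ : ℝ → En n} (hγ : Continuous γ) {B : Set (En n)} (hB : MeasurableSet B) :
    Measurable fun z : En n × (ℝ × ℝ) =>
      B.indicator (1 : En n → ℝ≥0∞) (z.1 - z.2.1 • γ z.2.2) :=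
  (measurable_one.indicator hB).comp
    (by fun_prop : Continuous fun z : En n × (ℝ × ℝ) => z.1 - z.2.1 • γ z.2.2).measurable

lemma measurable_Gf {γ : ℝ → En n} (hγ : Continuous γ) (A : Set ℝ) {B : Set (En n)}
    (hB : MeasurableSet B) (R : ℝ) : Measurable (Gf γ A B R) :=
  (measurable_ind hγ hB).lintegral_prod_right'

lemma lintegral_Gf {γ : ℝ → En n} (hγ : Continuous γ) (A : Set ℝ) {B : Set (En n)}
    (hB : MeasurableSet B) (R : ℝ) :
    ∫⁻ x, Gf γ A B R x = volume B * (ENNReal.ofReal (2 * R) * volume A) := by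
  unfold Gf
  rw [lintegral_lintegral_swap (measurable_ind hγ hB).aemeasurable]
  have h1 : ∀ q : ℝ × ℝ, ∫⁻ x : En n, B.indicator 1 (x - q.1 • γ q.2) = volume B := by
    intro q
    rw [lintegral_sub_right_eq_self (B.indicator (1 : En n → ℝ≥0∞)) (q.1 • γ q.2),
      lintegral_indicator_one hB]
  simp only [h1]
  rw [lintegral_const, ← univ_prod_univ, Measure.prod_prod, Measure.restrict_apply_univ,
    Measure.restrict_apply_univ, Real.volume_Icc]
  congr 3
  ring

lemma Gf_ge {γ : ℝ → En n} {A T : Set ℝ} {B : Set (En n)} {R t w : ℝ} {x : En n}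
    (hA : MeasurableSet A) (hT : MeasurableSet T) (h1 : R ≤ t) (h2 : t + w ≤ 3 * R)
    (hB : ∀ t' ∈ Icc t (t + w), ∀ s ∈ T, x - t' • γ s ∈ B) :
    ENNReal.ofReal w * volume (T ∩ A) ≤ Gf γ A B R x := by
  have hm : MeasurableSet (Icc t (t + w) ×ˢ T) := measurableSet_Icc.prod hT
  unfold Gf
  calc ENNReal.ofReal w * volume (T ∩ A)
      = ((volume.restrict (Icc R (3 * R))).prod (volume.restrict A)) (Icc t (t + w) ×ˢ T) := by
        rw [Measure.prod_prod, Measure.restrict_apply measurableSet_Icc,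
          Measure.restrict_apply hT, inter_eq_left.2 (Icc_subset_Icc h1 h2), Real.volume_Icc,
          add_sub_cancel_left]
    _ = ∫⁻ q in Icc t (t + w) ×ˢ T, 1
          ∂((volume.restrict (Icc R (3 * R))).prod (volume.restrict A)) := by
        rw [setLIntegral_one]
    _ ≤ ∫⁻ q in Icc t (t + w) ×ˢ T, B.indicator 1 (x - q.1 • γ q.2)
          ∂((volume.restrict (Icc R (3 * R))).prod (volume.restrict A)) := by
        apply setLIntegral_mono' hm
        intro q hq
        rw [indicator_of_mem (hB q.1 hq.1 q.2 hq.2)]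
        exact le_rfl
    _ ≤ _ := setLIntegral_le_lintegral _ _

/-- One dyadic scale in `t` and one dyadic level. -/
theorem scale (hn : 2 ≤ n) (c Γ : ℝ) (hc : 0 < c) (hΓ : 1 ≤ Γ) : ∃ M C : ℝ, 1 ≤ M ∧ 1 ≤ C ∧
    ∀ (γ : ℝ → En n) (α β : ℝ), Piece n γ α β c Γ →
    ∀ (K : Set (En n)), IsOpen K → Convex ℝ K → Bornology.IsBounded K → ∀ y0 ∈ K,
      ∃ r : ℝ, 0 < r ∧ ball (0 : En n) r ⊆ K - K ∧
      ∀ R σ : ℝ, r ≤ R → 0 < σ → σ ≤ 1 → ∃ S : Set (En n), MeasurableSet S ∧
        (σ ^ n ≤ M * (2 * r / R) →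
          volume S ≤ ENNReal.ofReal (C / σ ^ n) * volume K) ∧
        ∀ (x : En n) (t : ℝ), R ≤ t → t ≤ 2 * R →
          ENNReal.ofReal σ < volume (Sl γ α β K x t) → x ∈ S ∧ σ ^ n ≤ M * (2 * r / R) := by
  obtain ⟨M, hM, H1⟩ := oneD1 n c hc
  obtain ⟨C, hC, H2⟩ := oneD2 n hn c M hc hM
  refine ⟨M, 8 ^ (n + 1) * Γ * C, hM, ?_, ?_⟩
  · have : (1 : ℝ) ≤ 8 ^ (n + 1) := one_le_pow₀ (by norm_num)
    have h2 : 1 ≤ 8 ^ (n + 1) * Γ := by nlinarith
    nlinarith
  intro γ α β hP K hK hKc hKb y0 hy0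
  obtain ⟨r, hr, hball, e, he, hwid⟩ := exists_width (by omega : 0 < n) hK hKc ⟨y0, hy0⟩ hKb
  refine ⟨r, hr, hball, ?_⟩
  intro R σ hrR hσ hσ1
  have hR : 0 < R := hr.trans_le hrR
  have hΓ0 : 0 < Γ := by linarith
  set ρ := 2 * r / R with hρ
  have hρ0 : 0 < ρ := by positivity
  set g : ℝ → ℝ := fun s => ⟪e, γ s⟫ with hg
  have hgs : ContDiff ℝ ∞ g := contDiff_inner γ hP.smooth e
  have hft : FT n c g α β := hP.ft e he
  set A : Set ℝ := {s | s ∈ Ioo α β ∧ |deriv g s| ≤ 2 ^ n * ρ / σ} with hA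
  have hdc : Continuous (deriv g) := hgs.continuous_deriv (by simp)
  have hAm : MeasurableSet A :=
    measurableSet_Ioo.inter (measurableSet_le hdc.abs.measurable measurable_const)
  have hAfin : volume A ≠ ⊤ :=
    ((measure_mono (fun s hs => hs.1)).trans_lt (measure_Ioo_lt_top (a := α) (b := β))).ne
  set B := dil K y0 2 with hB
  have hBm : MeasurableSet B := (isOpen_dil hK y0 (by norm_num)).measurableSet
  have hγc := hP.smooth.continuous
  set θ := r / Γ * (σ / 2) with hθ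
  have hθ0 : 0 < θ := by positivity
  refine ⟨{x | ENNReal.ofReal θ ≤ Gf γ A B R x},
    measurableSet_le measurable_const (measurable_Gf hγc A hBm R), ?_, ?_⟩
  · intro hσM
    have hA2 := H2 g hgs α β hP.len hft σ ρ hσ hσ1 hρ0 hσM
    rw [← hA] at hA2
    have h1 := mul_meas_ge_le_lintegral (μ := volume) (measurable_Gf hγc A hBm R) (ENNReal.ofReal θ)
    rw [lintegral_Gf hγc A hBm R] at h1
    have h2 : volume B ≤ ENNReal.ofReal (8 ^ n) * volume K := by
      have := volume_dil_le hK hKc ⟨y0, hy0⟩ hKb y0 (c := 2) (by norm_num)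
      rwa [show (4 * 2 : ℝ) = 8 by norm_num] at this
    have h3 : volume A = ENNReal.ofReal (volume.real A) := (ENNReal.ofReal_toReal hAfin).symm
    have h4 : volume.real A ≤ C * ρ / σ ^ (n - 1) := by
      rw [le_div_iff₀ (by positivity)]; exact hA2
    have h5 : ENNReal.ofReal θ * volume {x | ENNReal.ofReal θ ≤ Gf γ A B R x}
        ≤ ENNReal.ofReal (8 ^ n * (2 * R) * (C * ρ / σ ^ (n - 1))) * volume K := by
      refine h1.trans ?_
      rw [h3]
      calc volume B * (ENNReal.ofReal (2 * R) * ENNReal.ofReal (volume.real A))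
          ≤ ENNReal.ofReal (8 ^ n) * volume K *
              (ENNReal.ofReal (2 * R) * ENNReal.ofReal (C * ρ / σ ^ (n - 1))) := by
            gcongr
        _ = ENNReal.ofReal (8 ^ n * (2 * R) * (C * ρ / σ ^ (n - 1))) * volume K := by
            rw [ENNReal.ofReal_mul (p := 8 ^ n * (2 * R)) (by positivity),
              ENNReal.ofReal_mul (p := 8 ^ n) (by positivity)]
            ring
    have h6 : ENNReal.ofReal θ⁻¹ * ENNReal.ofReal θ = 1 := by
      rw [← ENNReal.ofReal_mul (by positivity), inv_mul_cancel₀ hθ0.ne', ENNReal.ofReal_one]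
    calc volume {x | ENNReal.ofReal θ ≤ Gf γ A B R x}
        = ENNReal.ofReal θ⁻¹ * (ENNReal.ofReal θ * volume {x | ENNReal.ofReal θ ≤ Gf γ A B R x}) := by
          rw [← mul_assoc, h6, one_mul]
      _ ≤ ENNReal.ofReal θ⁻¹ *
            (ENNReal.ofReal (8 ^ n * (2 * R) * (C * ρ / σ ^ (n - 1))) * volume K) := by gcongr
      _ = ENNReal.ofReal (8 ^ (n + 1) * Γ * C / σ ^ n) * volume K := by
          rw [← mul_assoc, ← ENNReal.ofReal_mul (by positivity)]
          congr 2
          have e1 : σ ^ n = σ ^ (n - 1) * σ := by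
            rw [← pow_succ]; congr 1; omega
          rw [e1, hθ, hρ]
          field_simp
          ring
  · intro x t ht1 ht2 hvol
    have ht0 : 0 < t := hR.trans_le ht1
    set T := Sl γ α β K x t with hT
    have hTm : MeasurableSet T := (isOpen_Sl hγc hK x t).measurableSet
    have hTsub : T ⊆ Ioo α β := fun s hs => hs.1
    have hosc : ∀ s ∈ T, ∀ s' ∈ T, |g s - g s'| ≤ ρ := by
      intro s hs s' hs'
      have h1 := hwid _ hs.2 _ hs'.2
      rw [← inner_sub_right, show x - t • γ s - (x - t • γ s') = t • (γ s' - γ s) by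
        rw [smul_sub]; abel, real_inner_smul_right, abs_mul, abs_of_pos ht0, inner_sub_right] at h1
      have h2 : |g s - g s'| = |⟪e, γ s'⟫ - ⟪e, γ s⟫| := by rw [abs_sub_comm]
      rw [h2, hρ, le_div_iff₀ hR]
      calc |⟪e, γ s'⟫ - ⟪e, γ s⟫| * R ≤ |⟪e, γ s'⟫ - ⟪e, γ s⟫| * t := by gcongr
        _ = t * |⟪e, γ s'⟫ - ⟪e, γ s⟫| := mul_comm _ _
        _ ≤ 2 * r := h1
    obtain ⟨hσM, hlow⟩ := H1 g hgs α β hft σ ρ hσ hσ1 hρ0 T hTsub hosc hvol
    refine ⟨?_, hσM⟩
    have hTA : T ∩ {s | |deriv g s| ≤ 2 ^ n * ρ / σ} = T ∩ A := by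
      ext s
      constructor
      · rintro ⟨h1, h2⟩; exact ⟨h1, hTsub h1, h2⟩
      · rintro ⟨h1, h2⟩; exact ⟨h1, h2.2⟩
    rw [hTA] at hlow
    have hrΓ : r / Γ ≤ r := div_le_self hr.le hΓ
    have hge := Gf_ge (γ := γ) (B := B) (x := x) (R := R) (t := t) (w := r / Γ) hAm hTm ht1
      (by linarith) (by
        intro t' ht' s hs
        have hd : -((t' - t) • γ s) ∈ (1 : ℝ) • (K - K) := by
          apply mem_smul_diff one_pos hball
          rw [norm_neg, norm_smul, Real.norm_eq_abs, abs_of_nonneg (by linarith [ht'.1]), one_mul]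
          have hb := hP.bound s (hTsub hs)
          have h1 : t' - t ≤ r / Γ := by linarith [ht'.2]
          calc (t' - t) * ‖γ s‖ ≤ r / Γ * ‖γ s‖ := by gcongr
            _ < r / Γ * Γ := by
                apply mul_lt_mul_of_pos_left hb (by positivity)
            _ = r := by field_simp
        have := add_diff_subset hKc hy0 zero_le_one hs.2 hd
        rw [show (1 + 1 : ℝ) = 2 by norm_num] at this
        have e2 : x - t • γ s + -((t' - t) • γ s) = x - t' • γ s := by
          rw [sub_smul]; abel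
        rwa [e2] at this)
    show ENNReal.ofReal θ ≤ Gf γ A B R x
    refine le_trans ?_ hge
    rw [hθ, ENNReal.ofReal_mul (by positivity)]
    gcongr

end Pool.Agent.MC
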