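import Mathlib

/-!
One-dimensional sublevel set estimates.
-/

open MeasureTheory Set Filter Topology
open scoped ENNReal ContDiff

namespace Pool.Agent.MC

/-- Splitting of an interval at the change of sign of a monotone function. -/
lemma split_mono {u : ℝ → ℝ} {α β : ℝ} (hαβ : α ≤ β) (hm : MonotoneOn u (Ioo α β)) :
    ∃ θ ∈ Icc α β, (∀ s ∈ Ioo α θ, u s ≤ 0) ∧ (∀ s ∈ Ioo θ β, 0 ≤ u s) := by
  set S : Set ℝ := {s | s ∈ Ioo α β ∧ u s ≤ 0} ∪ {α} with hS
  have hne : S.Nonempty := ⟨α, Or.inr rfl⟩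
  have hbd : BddAbove S := by
    refine ⟨β, ?_⟩
    rintro s (hs | hs)
    · exact hs.1.2.le
    · rw [mem_singleton_iff] at hs; rw [hs]; exact hαβ
  refine ⟨sSup S, ⟨le_csSup hbd (Or.inr rfl), csSup_le hne ?_⟩, ?_, ?_⟩
  · rintro s (hs | hs)
    · exact hs.1.2.le
    · rw [mem_singleton_iff] at hs; rw [hs]; exact hαβ
  · intro s hs
    obtain ⟨s', hs', hlt⟩ := exists_lt_of_lt_csSup hne hs.2
    rcases hs' with hs' | hs'
    · exact (hm ⟨hs.1, hlt.trans hs'.1.2⟩ hs'.1 hlt.le).trans hs'.2
    · rw [mem_singleton_iff] at hs'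
      rw [hs'] at hlt
      exact absurd hs.1 (not_lt.2 hlt.le)
  · intro s hs
    by_contra hcon
    have : s ∈ S := Or.inl ⟨⟨lt_of_le_of_lt (le_csSup hbd (Or.inr rfl)) hs.1, hs.2⟩,
      (not_le.1 hcon).le⟩
    exact absurd (le_csSup hbd this) (not_le.2 hs.1)

lemma monotoneOn_of_deriv {u : ℝ → ℝ} {α β : ℝ} (hu : Differentiable ℝ u)
    (hd : ∀ s ∈ Ioo α β, 0 ≤ deriv u s) : MonotoneOn u (Icc α β) := by
  apply monotoneOn_of_deriv_nonneg (convex_Icc α β) hu.continuous.continuousOn
    hu.differentiableOn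
  intro s hs
  rw [interior_Icc] at hs
  exact hd s hs

/-- The sublevel set estimate. -/
theorem sublevel (m : ℕ) : ∃ C : ℝ, 0 < C ∧ ∀ h : ℝ → ℝ, ContDiff ℝ ∞ h →
    ∀ α β c : ℝ, 0 < c → (∀ s ∈ Ioo α β, c ≤ iteratedDeriv (m + 1) h s) →
      ∀ lam τ : ℝ, 0 ≤ τ →
        volume.real {s | s ∈ Ioo α β ∧ |h s - lam| ≤ τ} ^ (m + 1) ≤ C * τ / c := by
  induction m with
  | zero =>
    refine ⟨2, by norm_num, ?_⟩
    intro h hh α β c hc hd lam τ hτ
    have hdiff : Differentiable ℝ h := hh.differentiable (by simp)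
    have h1 : volume {s | s ∈ Ioo α β ∧ |h s - lam| ≤ τ} ≤ ENNReal.ofReal (2 * τ / c) := by
      refine (Real.volume_le_diam _).trans (Metric.ediam_le ?_)
      have key : ∀ s ∈ Ioo α β, ∀ s' ∈ Ioo α β, |h s - lam| ≤ τ → |h s' - lam| ≤ τ → s ≤ s' →
          s' - s ≤ 2 * τ / c := by
        intro s hs s' hs' hl hl' hss
        have hmv : c * (s' - s) ≤ h s' - h s := by
          apply (convex_Ioo α β).mul_sub_le_image_sub_of_le_deriv hdiff.continuous.continuousOn
            hdiff.differentiableOn _ s hs s' hs' hss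
          intro t ht
          rw [interior_Ioo] at ht
          have := hd t ht
          simpa [iteratedDeriv_one] using this
        rw [le_div_iff₀ hc]
        rw [abs_le] at hl hl'
        linarith [hl.1, hl.2, hl'.1, hl'.2]
      intro s hs s' hs'
      rw [edist_dist, Real.dist_eq]
      apply ENNReal.ofReal_le_ofReal
      rcases le_total s s' with hle | hle
      · rw [abs_sub_comm, abs_of_nonneg (by linarith)]
        exact key s hs.1 s' hs'.1 hs.2 hs'.2 hle
      · rw [abs_of_nonneg (by linarith)]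
        exact key s' hs'.1 s hs.1 hs'.2 hs.2 hle
    rw [zero_add, pow_one, Measure.real]
    refine ENNReal.toReal_le_of_le_ofReal (by positivity) h1
  | succ m ih =>
    obtain ⟨C, hC, ih⟩ := ih
    refine ⟨8 * (8 / 3) ^ (m + 1) * C, by positivity, ?_⟩
    intro h hh α β c hc hd lam τ hτ
    set S := {s | s ∈ Ioo α β ∧ |h s - lam| ≤ τ} with hS
    set μ := volume.real S with hμ
    have hμ0 : 0 ≤ μ := measureReal_nonneg
    rcases hμ0.eq_or_lt with h0 | hpos
    · rw [← h0]
      rw [zero_pow (by omega)]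
      positivity
    have hαβ : α ≤ β := by
      by_contra hcon
      have : S = ∅ := by
        rw [hS]; ext s
        simp only [mem_setOf_eq, mem_empty_iff_false, iff_false, not_and]
        intro hs
        exact absurd (hs.1.trans hs.2) (not_lt.2 (not_le.1 hcon).le)
      rw [hμ, this, measureReal_empty] at hpos
      exact lt_irrefl _ hpos
    have hvd : Differentiable ℝ (iteratedDeriv (m + 1) h) :=
      hh.differentiable_iteratedDeriv (m + 1) (by exact_mod_cast WithTop.coe_lt_top _)
    have hvder : deriv (iteratedDeriv (m + 1) h) = iteratedDeriv (m + 2) h :=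
      (iteratedDeriv_succ (n := m + 1) (f := h)).symm
    have hmono : MonotoneOn (iteratedDeriv (m + 1) h) (Icc α β) := by
      apply monotoneOn_of_deriv hvd
      intro s hs
      rw [hvder]
      exact hc.le.trans (hd s hs)
    obtain ⟨θ, hθ, hneg, hposi⟩ := split_mono hαβ (hmono.mono Ioo_subset_Icc_self)
    have hslope : ∀ s ∈ Ioo α β, ∀ s' ∈ Ioo α β, s ≤ s' →
        c * (s' - s) ≤ iteratedDeriv (m + 1) h s' - iteratedDeriv (m + 1) h s := by
      intro s hs s' hs' hss
      apply (convex_Ioo α β).mul_sub_le_image_sub_of_le_deriv hvd.continuous.continuousOn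
        hvd.differentiableOn _ s hs s' hs' hss
      intro t ht
      rw [interior_Ioo] at ht
      rw [hvder]
      exact hd t ht
    have hright : ∀ s ∈ Ioo θ β, c * (s - θ) ≤ iteratedDeriv (m + 1) h s := by
      intro s hs
      have hsI : s ∈ Ioo α β := ⟨hθ.1.trans_lt hs.1, hs.2⟩
      apply le_of_forall_pos_sub_le
      intro e he
      obtain ⟨s', hs'1, hs'2⟩ : ∃ s', θ < s' ∧ s' < min s (θ + e / c) :=
        exists_between (lt_min hs.1 (by linarith [div_pos he hc]))
      have hs's : s' < s := hs'2.trans_le (min_le_left _ _)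
      have hs'e : s' < θ + e / c := hs'2.trans_le (min_le_right _ _)
      have h1 := hslope s' ⟨hθ.1.trans_lt hs'1, hs's.trans hs.2⟩ s hsI hs's.le
      have h2 := hposi s' ⟨hs'1, hs's.trans hs.2⟩
      have h3 : c * (s' - θ) ≤ e := by
        have : s' - θ ≤ e / c := by linarith
        calc c * (s' - θ) ≤ c * (e / c) := mul_le_mul_of_nonneg_left this hc.le
          _ = e := by field_simp
      nlinarith
    have hleft : ∀ s ∈ Ioo α θ, iteratedDeriv (m + 1) h s ≤ -(c * (θ - s)) := by
      intro s hs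
      have hsI : s ∈ Ioo α β := ⟨hs.1, hs.2.trans_le hθ.2⟩
      have : c * (θ - s) ≤ -iteratedDeriv (m + 1) h s := by
        apply le_of_forall_pos_sub_le
        intro e he
        obtain ⟨s', hs'1, hs'2⟩ : ∃ s', max s (θ - e / c) < s' ∧ s' < θ :=
          exists_between (max_lt hs.2 (by linarith [div_pos he hc]))
        have hs's : s < s' := (le_max_left _ _).trans_lt hs'1
        have hs'e : θ - e / c < s' := (le_max_right _ _).trans_lt hs'1
        have h1 := hslope s hsI s' ⟨hs.1.trans hs's, hs'2.trans_le hθ.2⟩ hs's.le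
        have h2 := hneg s' ⟨hs.1.trans hs's, hs'2⟩
        have h3 : c * (θ - s') ≤ e := by
          have : θ - s' ≤ e / c := by linarith
          calc c * (θ - s') ≤ c * (e / c) := mul_le_mul_of_nonneg_left this hc.le
            _ = e := by field_simp
        nlinarith
      linarith
    set η := μ / 8 with hη
    have hη0 : 0 < η := by positivity
    set S1 := {s | s ∈ Ioo α (θ - η) ∧ |(fun x => -h x) s - (-lam)| ≤ τ} with hS1
    set S2 := {s | s ∈ Ioo (θ + η) β ∧ |h s - lam| ≤ τ} with hS2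
    have hb2 := ih h hh (θ + η) β (c * η) (by positivity) (fun s hs => by
      have h1 := hright s ⟨by linarith [hs.1], hs.2⟩
      have h2 : c * η ≤ c * (s - θ) := mul_le_mul_of_nonneg_left (by linarith [hs.1]) hc.le
      linarith) lam τ hτ
    have hb1 := ih (fun x => -h x) hh.neg α (θ - η) (c * η) (by positivity) (fun s hs => by
      have h1 := hleft s ⟨hs.1, by linarith [hs.2]⟩
      have h2 : c * η ≤ c * (θ - s) := mul_le_mul_of_nonneg_left (by linarith [hs.2]) hc.le
      have h3 : iteratedDeriv (m + 1) (fun x => -h x) s = -iteratedDeriv (m + 1) h s := by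
        have := iteratedDeriv_fun_neg (m + 1) h s
        simpa using this
      rw [h3]
      linarith) (-lam) τ hτ
    rw [← hS1] at hb1
    rw [← hS2] at hb2
    have hcover : S ⊆ Icc (θ - η) (θ + η) ∪ (S1 ∪ S2) := by
      intro s hs
      by_cases h1 : s < θ - η
      · right; left
        refine ⟨⟨hs.1.1, h1⟩, ?_⟩
        have : (fun x => -h x) s - (-lam) = -(h s - lam) := by ring
        rw [this, abs_neg]
        exact hs.2
      · by_cases h2 : θ + η < s
        · right; right
          exact ⟨⟨h2, hs.1.2⟩, hs.2⟩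
        · left
          exact ⟨not_lt.1 h1, not_lt.1 h2⟩
    have hfin1 : volume S1 ≠ ⊤ :=
      (measure_mono (fun s hs => hs.1)).trans_lt (measure_Ioo_lt_top (a := α) (b := θ - η)) |>.ne
    have hfin2 : volume S2 ≠ ⊤ :=
      (measure_mono (fun s hs => hs.1)).trans_lt (measure_Ioo_lt_top (a := θ + η) (b := β)) |>.ne
    have hfin3 : volume (Icc (θ - η) (θ + η) ∪ (S1 ∪ S2)) ≠ ⊤ := by
      refine ((measure_union_le _ _).trans_lt ?_).ne
      refine ENNReal.add_lt_top.2 ⟨measure_Icc_lt_top, (measure_union_le _ _).trans_lt ?_⟩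
      exact ENNReal.add_lt_top.2 ⟨hfin1.lt_top, hfin2.lt_top⟩
    have hsum : μ ≤ 2 * η + (volume.real S1 + volume.real S2) := by
      have h1 : μ ≤ volume.real (Icc (θ - η) (θ + η) ∪ (S1 ∪ S2)) :=
        measureReal_mono hcover hfin3
      have h2 := measureReal_union_le (μ := volume) (Icc (θ - η) (θ + η)) (S1 ∪ S2)
      have h3 := measureReal_union_le (μ := volume) S1 S2
      have h4 : volume.real (Icc (θ - η) (θ + η)) = 2 * η := by
        rw [Real.volume_real_Icc]
        rw [max_eq_left (by linarith)]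
        ring
      linarith
    have hlarge : 3 * μ / 8 ≤ volume.real S1 ∨ 3 * μ / 8 ≤ volume.real S2 := by
      by_contra hcon
      rw [not_or, not_le, not_le] at hcon
      rw [hη] at hsum
      linarith [hcon.1, hcon.2]
    have hfin : (3 * μ / 8) ^ (m + 1) ≤ C * τ / (c * η) := by
      rcases hlarge with h1 | h1
      · exact (pow_le_pow_left₀ (by positivity) h1 _).trans hb1
      · exact (pow_le_pow_left₀ (by positivity) h1 _).trans hb2
    have e1 : (3 * μ / 8) ^ (m + 1) = (3 / 8) ^ (m + 1) * μ ^ (m + 1) := by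
      rw [← mul_pow]; congr 1; ring
    rw [e1, hη, le_div_iff₀ (by positivity)] at hfin
    rw [le_div_iff₀ hc]
    have e2 : (8 / 3 : ℝ) ^ (m + 1) * (3 / 8) ^ (m + 1) = 1 := by
      rw [← mul_pow]; norm_num
    calc μ ^ (m + 1 + 1) * c
        = 8 * (8 / 3) ^ (m + 1) * ((3 / 8) ^ (m + 1) * μ ^ (m + 1) * (c * (μ / 8))) := by
          rw [pow_succ μ (m + 1)]
          linear_combination (-(μ ^ (m + 1) * μ * c)) * e2
      _ ≤ 8 * (8 / 3) ^ (m + 1) * (C * τ) := by
          apply mul_le_mul_of_nonneg_left hfin (by positivity)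
      _ = 8 * (8 / 3) ^ (m + 1) * C * τ := by ring

/-- The same for either sign of the derivative. -/
theorem sublevel' (m : ℕ) : ∃ C : ℝ, 0 < C ∧ ∀ h : ℝ → ℝ, ContDiff ℝ ∞ h →
    ∀ α β c : ℝ, 0 < c → ((∀ s ∈ Ioo α β, c ≤ iteratedDeriv (m + 1) h s) ∨
      (∀ s ∈ Ioo α β, iteratedDeriv (m + 1) h s ≤ -c)) →
      ∀ lam τ : ℝ, 0 ≤ τ →
        volume.real {s | s ∈ Ioo α β ∧ |h s - lam| ≤ τ} ^ (m + 1) ≤ C * τ / c := by
  obtain ⟨C, hC, H⟩ := sublevel m
  refine ⟨C, hC, ?_⟩
  intro h hh α β c hc hd lam τ hτ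
  rcases hd with hd | hd
  · exact H h hh α β c hc hd lam τ hτ
  · have := H (fun x => -h x) hh.neg α β c hc (fun s hs => by
      have h3 : iteratedDeriv (m + 1) (fun x => -h x) s = -iteratedDeriv (m + 1) h s := by
        have := iteratedDeriv_fun_neg (m + 1) h s
        simpa using this
      rw [h3]
      linarith [hd s hs]) (-lam) τ hτ
    have e : {s | s ∈ Ioo α β ∧ |(fun x => -h x) s - (-lam)| ≤ τ}
        = {s | s ∈ Ioo α β ∧ |h s - lam| ≤ τ} := by
      ext s
      have : (fun x => -h x) s - (-lam) = -(h s - lam) := by ring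
      simp only [mem_setOf_eq]
      rw [this, abs_neg]
    rwa [e] at this

/-- A function of small oscillation on a set has a small derivative on most of this set. -/
theorem pieces (m : ℕ) : ∀ g : ℝ → ℝ, ContDiff ℝ ∞ g → ∀ α β : ℝ,
    (∀ s ∈ Ioo α β, 0 ≤ iteratedDeriv (m + 1) g s) → ∀ ρ τ : ℝ, 0 ≤ ρ → 0 < τ →
      ∀ T : Set ℝ, T ⊆ Ioo α β → (∀ s ∈ T, ∀ s' ∈ T, |g s - g s'| ≤ ρ) →
        volume (T ∩ {s | τ < |deriv g s|}) ≤ ENNReal.ofReal (2 ^ m * ρ / τ) := by
  induction m with
  | zero =>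
    intro g hg α β hd ρ τ hρ hτ T hT hosc
    rcases T.eq_empty_or_nonempty with h0 | hne
    · rw [h0, empty_inter, measure_empty]; exact zero_le
    have hdiff : Differentiable ℝ g := hg.differentiable (by simp)
    have hcd : Continuous (deriv g) := hg.continuous_deriv (by simp)
    have hbb : BddBelow T := ⟨α, fun s hs => (hT hs).1.le⟩
    have hba : BddAbove T := ⟨β, fun s hs => (hT hs).2.le⟩
    have hclosed : IsClosed {q : ℝ × ℝ | |g q.1 - g q.2| ≤ ρ} :=
      isClosed_le (by have := hdiff.continuous; fun_prop) continuous_const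
    have hsub : closure (T ×ˢ T) ⊆ {q : ℝ × ℝ | |g q.1 - g q.2| ≤ ρ} :=
      closure_minimal (fun q hq => hosc q.1 hq.1 q.2 hq.2) hclosed
    rw [closure_prod_eq] at hsub
    set s1 := sInf T
    set s2 := sSup T
    have h12 : |g s2 - g s1| ≤ ρ :=
      hsub (show (s2, s1) ∈ closure T ×ˢ closure T from
        ⟨csSup_mem_closure hne hba, csInf_mem_closure hne hbb⟩)
    have hs12 : s1 ≤ s2 := csInf_le_csSup hne hbb hba
    have hα1 : α ≤ s1 := le_csInf hne (fun s hs => (hT hs).1.le)
    have h2β : s2 ≤ β := csSup_le hne (fun s hs => (hT hs).2.le)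
    have hnn : ∀ s ∈ Ioo α β, 0 ≤ deriv g s := by
      intro s hs
      have := hd s hs
      simpa [iteratedDeriv_one] using this
    have hint : ∫ s in Icc s1 s2, deriv g s = g s2 - g s1 := by
      rw [integral_Icc_eq_integral_Ioc, ← intervalIntegral.integral_of_le hs12]
      exact intervalIntegral.integral_deriv_eq_sub (fun x _ => hdiff x)
        (hcd.intervalIntegrable _ _)
    have hae : 0 ≤ᵐ[volume.restrict (Icc s1 s2)] deriv g := by
      rw [← restrict_Ioo_eq_restrict_Icc]
      refine (ae_restrict_iff' measurableSet_Ioo).2 (Eventually.of_forall fun s hs => ?_)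
      exact hnn s ⟨hα1.trans_lt hs.1, hs.2.trans_le h2β⟩
    have hmk := mul_meas_ge_le_integral_of_nonneg hae
      (hcd.integrableOn_Icc (a := s1) (b := s2)) τ
    rw [hint] at hmk
    have hsubset : T ∩ {s | τ < |deriv g s|} ⊆ {s | τ ≤ deriv g s} ∩ Icc s1 s2 := by
      intro s hs
      refine ⟨?_, csInf_le hbb hs.1, le_csSup hba hs.1⟩
      have h1 : τ < |deriv g s| := hs.2
      rw [abs_of_nonneg (hnn s (hT hs.1))] at h1
      exact h1.le
    have hmeas : (volume.restrict (Icc s1 s2)) {s | τ ≤ deriv g s}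
        = volume ({s | τ ≤ deriv g s} ∩ Icc s1 s2) :=
      Measure.restrict_apply (measurableSet_le measurable_const hcd.measurable)
    rw [Measure.real, hmeas] at hmk
    have hfin : volume ({s | τ ≤ deriv g s} ∩ Icc s1 s2) ≠ ⊤ :=
      ((measure_mono inter_subset_right).trans_lt measure_Icc_lt_top).ne
    refine (measure_mono hsubset).trans ?_
    rw [← ENNReal.ofReal_toReal hfin]
    apply ENNReal.ofReal_le_ofReal
    rw [pow_zero, one_mul, le_div_iff₀ hτ]
    have := (abs_le.1 h12).2
    linarith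
  | succ m ih =>
    intro g hg α β hd ρ τ hρ hτ T hT hosc
    rcases T.eq_empty_or_nonempty with h0 | hne
    · rw [h0, empty_inter, measure_empty]; exact zero_le
    have hαβ : α ≤ β := by
      obtain ⟨s, hs⟩ := hne
      exact ((hT hs).1.trans (hT hs).2).le
    have hvd : Differentiable ℝ (iteratedDeriv (m + 1) g) :=
      hg.differentiable_iteratedDeriv (m + 1) (by exact_mod_cast WithTop.coe_lt_top _)
    have hvder : deriv (iteratedDeriv (m + 1) g) = iteratedDeriv (m + 2) g :=
      (iteratedDeriv_succ (n := m + 1) (f := g)).symm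
    have hmono : MonotoneOn (iteratedDeriv (m + 1) g) (Icc α β) := by
      apply monotoneOn_of_deriv hvd
      intro s hs
      rw [hvder]
      exact hd s hs
    obtain ⟨θ, hθ, hneg, hposi⟩ := split_mono hαβ (hmono.mono Ioo_subset_Icc_self)
    have h2 := ih g hg θ β hposi ρ τ hρ hτ (T ∩ Ioo θ β) inter_subset_right
      (fun s hs s' hs' => hosc s hs.1 s' hs'.1)
    have h1 := ih (fun x => -g x) hg.neg α θ (fun s hs => by
      have h3 : iteratedDeriv (m + 1) (fun x => -g x) s = -iteratedDeriv (m + 1) g s := by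
        have := iteratedDeriv_fun_neg (m + 1) g s
        simpa using this
      rw [h3]
      linarith [hneg s hs]) ρ τ hρ hτ (T ∩ Ioo α θ) inter_subset_right
      (fun s hs s' hs' => by
        have := hosc s hs.1 s' hs'.1
        rw [show -g s - -g s' = -(g s - g s') by ring, abs_neg]
        exact this)
    have hder : ∀ s, |deriv (fun x => -g x) s| = |deriv g s| := by
      intro s
      rw [deriv.fun_neg, abs_neg]
    simp only [hder] at h1
    have hcover : T ∩ {s | τ < |deriv g s|} ⊆ (T ∩ Ioo α θ ∩ {s | τ < |deriv g s|}) ∪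
        ((T ∩ Ioo θ β ∩ {s | τ < |deriv g s|}) ∪ {θ}) := by
      intro s hs
      rcases lt_trichotomy s θ with h | h | h
      · left; exact ⟨⟨hs.1, (hT hs.1).1, h⟩, hs.2⟩
      · right; right; exact h
      · right; left; exact ⟨⟨hs.1, h, (hT hs.1).2⟩, hs.2⟩
    refine (measure_mono hcover).trans ((measure_union_le _ _).trans ?_)
    have h3 : volume ((T ∩ Ioo θ β ∩ {s | τ < |deriv g s|}) ∪ {θ})
        ≤ ENNReal.ofReal (2 ^ m * ρ / τ) := by
      refine (measure_union_le _ _).trans ?_
      rw [Real.volume_singleton, add_zero]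
      exact h2
    refine (add_le_add h1 h3).trans ?_
    rw [← ENNReal.ofReal_add (by positivity) (by positivity)]
    apply ENNReal.ofReal_le_ofReal
    rw [pow_succ]
    apply le_of_eq
    ring

end Pool.Agent.MC
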