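import Pool.Agent.Lib_helper71.MC.Conv
import Pool.Agent.Lib_helper71.MC.OneDim

/-!
Uniform finite type of a nondegenerate curve.
-/

open MeasureTheory Set Filter Topology Metric
open scoped ENNReal Pointwise RealInnerProductSpace ContDiff

namespace Pool.Agent.MC

variable {n : ℕ}

lemma iteratedDeriv_inner (γ : ℝ → En n) (hγ : ContDiff ℝ ∞ γ) (e : En n) (k : ℕ) :
    iteratedDeriv k (fun s => ⟪e, γ s⟫) = fun s => ⟪e, iteratedDeriv k γ s⟫ := by
  induction k with
  | zero => simp [iteratedDeriv_zero]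
  | succ k ih =>
    rw [iteratedDeriv_succ, ih]
    funext s
    have hd : DifferentiableAt ℝ (iteratedDeriv k γ) s :=
      (hγ.differentiable_iteratedDeriv k (by exact_mod_cast WithTop.coe_lt_top _)) s
    have := (hasDerivAt_const s e).inner ℝ hd.hasDerivAt
    rw [this.deriv, inner_zero_left, add_zero, iteratedDeriv_succ]

lemma contDiff_inner (γ : ℝ → En n) (hγ : ContDiff ℝ ∞ γ) (e : En n) :
    ContDiff ℝ ∞ (fun s => ⟪e, γ s⟫) := contDiff_const.inner ℝ hγ

/-- Uniform finite type. -/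
theorem finite_type (hn : 0 < n) (γ : ℝ → En n) (a b : ℝ) (hab : a < b) (hγ : ContDiff ℝ ∞ γ)
    (hnd : ∀ s ∈ Icc a b, LinearIndependent ℝ (fun k : Fin n => iteratedDeriv ((k : ℕ) + 1) γ s)) :
    ∃ c δ : ℝ, 0 < c ∧ 0 < δ ∧ ∀ e : En n, ‖e‖ = 1 → ∀ s0 ∈ Icc a b, ∃ k < n,
      (∀ s ∈ Icc a b, |s - s0| < δ → c ≤ ⟪e, iteratedDeriv (k + 1) γ s⟫) ∨
      (∀ s ∈ Icc a b, |s - s0| < δ → ⟪e, iteratedDeriv (k + 1) γ s⟫ ≤ -c) := by
  have hcont : ∀ k : ℕ, Continuous (iteratedDeriv k γ) := fun k =>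
    hγ.continuous_iteratedDeriv k (by exact_mod_cast le_top)
  set F : En n × ℝ → ℝ := fun q => ∑ k : Fin n, |⟪q.1, iteratedDeriv ((k : ℕ) + 1) γ q.2⟫| with hF
  have hFc : Continuous F := by
    apply continuous_finsetSum
    intro k _
    exact (continuous_fst.inner ((hcont _).comp continuous_snd)).abs
  have hcomp : IsCompact (sphere (0 : En n) 1 ×ˢ Icc a b) := (isCompact_sphere _ _).prod isCompact_Icc
  have : Nonempty (Fin n) := ⟨⟨0, hn⟩⟩
  have hne : (sphere (0 : En n) 1 ×ˢ Icc a b).Nonempty := by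
    obtain ⟨v, hv⟩ := exists_norm_eq (En n) (zero_le_one (α := ℝ))
    exact ⟨(v, a), by rw [mem_sphere_zero_iff_norm]; exact hv, left_mem_Icc.2 hab.le⟩
  obtain ⟨q0, hq0, hmin⟩ := hcomp.exists_isMinOn hne hFc.continuousOn
  set m := F q0 with hm
  have hmpos : 0 < m := by
    by_contra hcon
    have hz : F q0 = 0 := le_antisymm (not_lt.1 hcon) (Finset.sum_nonneg fun _ _ => abs_nonneg _)
    have hz2 : ∀ k : Fin n, ⟪q0.1, iteratedDeriv ((k : ℕ) + 1) γ q0.2⟫ = 0 := by
      intro k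
      have := (Finset.sum_eq_zero_iff_of_nonneg (fun _ _ => abs_nonneg _)).1 hz k
        (Finset.mem_univ k)
      exact abs_eq_zero.1 this
    have hli := hnd q0.2 hq0.2
    have hspan : Submodule.span ℝ (Set.range fun k : Fin n => iteratedDeriv ((k : ℕ) + 1) γ q0.2)
        = ⊤ := hli.span_eq_top_of_card_eq_finrank (by simp)
    have hmem : q0.1 ∈ Submodule.span ℝ
        (Set.range fun k : Fin n => iteratedDeriv ((k : ℕ) + 1) γ q0.2) := by
      rw [hspan]; trivial
    have hself : ⟪q0.1, q0.1⟫ = 0 := by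
      have : Submodule.span ℝ (Set.range fun k : Fin n => iteratedDeriv ((k : ℕ) + 1) γ q0.2)
          ≤ LinearMap.ker (innerₛₗ ℝ q0.1) := by
        rw [Submodule.span_le]
        rintro _ ⟨k, rfl⟩
        exact hz2 k
      exact this hmem
    have h1 : ‖q0.1‖ = 1 := mem_sphere_zero_iff_norm.1 hq0.1
    rw [real_inner_self_eq_norm_sq, h1] at hself
    norm_num at hself
  have hn' : (0 : ℝ) < n := by exact_mod_cast hn
  -- uniform continuity
  set G : ℝ → (Fin n → En n) := fun s k => iteratedDeriv ((k : ℕ) + 1) γ s with hG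
  have hGc : Continuous G := continuous_pi fun k => hcont _
  have hGu : UniformContinuousOn G (Icc a b) :=
    isCompact_Icc.uniformContinuousOn_of_continuous hGc.continuousOn
  obtain ⟨δ, hδ, hGδ⟩ := Metric.uniformContinuousOn_iff.1 hGu (m / (2 * n)) (by positivity)
  refine ⟨m / (2 * n), δ, by positivity, hδ, ?_⟩
  intro e he s0 hs0
  have hFe : m ≤ F (e, s0) := hmin (show (e, s0) ∈ sphere (0 : En n) 1 ×ˢ Icc a b from
    ⟨by rw [mem_sphere_zero_iff_norm]; exact he, hs0⟩)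
  obtain ⟨k, hk⟩ : ∃ k : Fin n, m / n ≤ |⟪e, iteratedDeriv ((k : ℕ) + 1) γ s0⟫| := by
    by_contra hcon
    push Not at hcon
    have h1 : F (e, s0) < ∑ _k : Fin n, m / n :=
      Finset.sum_lt_sum_of_nonempty Finset.univ_nonempty (fun k _ => hcon k)
    rw [Finset.sum_const, Finset.card_univ, Fintype.card_fin, nsmul_eq_mul,
      mul_div_cancel₀ _ hn'.ne'] at h1
    linarith
  refine ⟨k, k.2, ?_⟩
  have hclose : ∀ s ∈ Icc a b, |s - s0| < δ →
      |⟪e, iteratedDeriv ((k : ℕ) + 1) γ s⟫ - ⟪e, iteratedDeriv ((k : ℕ) + 1) γ s0⟫|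
        ≤ m / (2 * n) := by
    intro s hs hss
    have h1 := hGδ s hs s0 hs0 (by rw [Real.dist_eq]; exact hss)
    have h2 : dist (G s k) (G s0 k) ≤ dist (G s) (G s0) := dist_le_pi_dist _ _ k
    rw [← inner_sub_right]
    refine (abs_real_inner_le_norm _ _).trans ?_
    rw [he, one_mul, ← dist_eq_norm]
    exact h2.trans h1.le
  have hmn : m / n = 2 * (m / (2 * n)) := by field_simp
  rcases le_total 0 ⟪e, iteratedDeriv ((k : ℕ) + 1) γ s0⟫ with h0 | h0
  · left
    intro s hs hss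
    have h1 := hclose s hs hss
    rw [abs_of_nonneg h0, hmn] at hk
    linarith [(abs_le.1 h1).1]
  · right
    intro s hs hss
    have h1 := hclose s hs hss
    rw [abs_of_nonpos h0, hmn] at hk
    linarith [(abs_le.1 h1).2]

end Pool.Agent.MC
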