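import Pool.Agent.Lib_helper71.MC.Core

/-!
The maximal estimate for a convex set and a short piece of the curve: the majorant.
-/

open MeasureTheory Set Filter Topology Metric
open scoped ENNReal Pointwise RealInnerProductSpace ContDiff

namespace Pool.Agent.MC

variable {n : ℕ}

/-- The coefficients of the sum over the dyadic levels are summable. -/
lemma summable_coef (n N0 : ℕ) (p0 C : ℝ) (hp0 : (n : ℝ) < p0) :
    Summable fun i : ℕ => ((n * i + N0 : ℕ) : ℝ) * ((2 * (1 / 2 : ℝ) ^ i) ^ p0 *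
      (C / ((1 / 2 : ℝ) ^ i) ^ n)) := by
  set q : ℝ := 2 ^ ((n : ℝ) - p0) with hq
  have hq0 : 0 < q := by positivity
  have hq1 : q < 1 := Real.rpow_lt_one_of_one_lt_of_neg (by norm_num) (by linarith)
  have hqn : ‖q‖ < 1 := by rw [Real.norm_eq_abs, abs_of_pos hq0]; exact hq1
  have e : ∀ i : ℕ, ((n * i + N0 : ℕ) : ℝ) * ((2 * (1 / 2 : ℝ) ^ i) ^ p0 *
      (C / ((1 / 2 : ℝ) ^ i) ^ n)) = (2 ^ p0 * C * n) * ((i : ℝ) ^ 1 * q ^ i)
        + (2 ^ p0 * C * N0) * q ^ i := by
    intro i
    have h1 : (2 * (1 / 2 : ℝ) ^ i) ^ p0 = 2 ^ p0 * ((2 : ℝ) ^ (-p0)) ^ i := by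
      rw [Real.mul_rpow (by norm_num) (by positivity), ← Real.rpow_natCast (1 / 2) i,
        ← Real.rpow_mul (by norm_num), ← Real.rpow_natCast _ i, ← Real.rpow_mul (by norm_num),
        one_div, Real.inv_rpow (by norm_num), ← Real.rpow_neg (by norm_num)]
      congr 2
      ring
    have h2 : C / ((1 / 2 : ℝ) ^ i) ^ n = C * ((2 : ℝ) ^ (n : ℝ)) ^ i := by
      rw [Real.rpow_natCast, ← pow_mul, ← pow_mul, mul_comm n i, one_div, inv_pow, div_inv_eq_mul]
    have h3 : ((2 : ℝ) ^ (-p0)) ^ i * ((2 : ℝ) ^ (n : ℝ)) ^ i = q ^ i := by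
      rw [← mul_pow, ← Real.rpow_add (by norm_num), hq]
      congr 2
      ring
    rw [h1, h2]
    push_cast
    calc ((n : ℝ) * i + N0) * (2 ^ p0 * ((2 : ℝ) ^ (-p0)) ^ i * (C * ((2 : ℝ) ^ (n : ℝ)) ^ i))
        = ((n : ℝ) * i + N0) * (2 ^ p0 * C) * (((2 : ℝ) ^ (-p0)) ^ i * ((2 : ℝ) ^ (n : ℝ)) ^ i) := by
          ring
      _ = _ := by rw [h3]; ring
  simp only [e]
  exact ((summable_pow_mul_geometric_of_norm_lt_one 1 hqn).mul_left _).add
    ((summable_geometric_of_norm_lt_one hqn).mul_left _)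

/-- The majorant of the maximal function of a convex set. -/
theorem majorant (hn : 2 ≤ n) (c Γ p0 : ℝ) (hc : 0 < c) (hΓ : 1 ≤ Γ) (hp0 : (n : ℝ) < p0) :
    ∃ C : ℝ≥0∞, C ≠ ⊤ ∧ ∀ (γ : ℝ → En n) (α β : ℝ), Piece n γ α β c Γ →
    ∀ (K : Set (En n)), IsOpen K → Convex ℝ K → Bornology.IsBounded K →
      ∃ m : En n → ℝ≥0∞, Measurable m ∧ ∫⁻ x, m x ≤ C * volume K ∧
        ∀ (x : En n) (t : ℝ), 0 < t → volume (Sl γ α β K x t) ^ p0 ≤ m x := by
  obtain ⟨M, C, hM, hC, H⟩ := scale hn c Γ hc hΓ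
  have hp00 : 0 < p0 := lt_of_le_of_lt (Nat.cast_nonneg n) hp0
  obtain ⟨N0, hN0⟩ := pow_unbounded_of_one_lt M (by norm_num : (1 : ℝ) < 2)
  set N : ℕ → ℕ := fun i => n * i + (N0 + 2) with hN
  set σ : ℕ → ℝ := fun i => (1 / 2 : ℝ) ^ i with hσ
  have hσ0 : ∀ i, 0 < σ i := fun i => by positivity
  have hσ1 : ∀ i, σ i ≤ 1 := fun i => pow_le_one₀ (by norm_num) (by norm_num)
  set a : ℕ → ℝ := fun i => ((N i : ℕ) : ℝ) * ((2 * σ i) ^ p0 * (C / σ i ^ n)) with ha
  have hasum : Summable a := summable_coef n (N0 + 2) p0 C hp0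
  have ha0 : ∀ i, 0 ≤ a i := fun i => by positivity
  refine ⟨ENNReal.ofReal ((4 * (1 + Γ)) ^ n) + ENNReal.ofReal (∑' i, a i), by simp, ?_⟩
  intro γ α β hP K hK hKc hKb
  rcases K.eq_empty_or_nonempty with h0 | hne
  · refine ⟨fun _ => 0, measurable_const, by simp, ?_⟩
    intro x t _
    have : Sl γ α β K x t = ∅ := by
      rw [h0]; ext s; simp [Sl]
    rw [this, measure_empty, ENNReal.zero_rpow_of_pos hp00]
  obtain ⟨y0, hy0⟩ := hne
  obtain ⟨r, hr, hball, HS⟩ := H γ α β hP K hK hKc hKb y0 hy0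
  have hrR : ∀ j : ℕ, r ≤ r * 2 ^ j := fun j =>
    le_mul_of_one_le_right hr.le (one_le_pow₀ (by norm_num))
  have HS2 := fun i j : ℕ => HS (r * 2 ^ j) (σ i) (hrR j) (hσ0 i) (hσ1 i)
  choose S hSm hSv hSx using HS2
  set cond : ℕ → ℕ → Prop := fun i j => σ i ^ n ≤ M * (2 * r / (r * 2 ^ j)) with hcond
  classical
  set term : ℕ → ℕ → En n → ℝ≥0∞ := fun i j x =>
    if cond i j then ENNReal.ofReal ((2 * σ i) ^ p0) * (S i j).indicator 1 x else 0 with hterm
  have htm : ∀ i j, Measurable (term i j) := by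
    intro i j
    simp only [hterm]
    by_cases h : cond i j
    · simp only [h, if_true]
      exact (measurable_one.indicator (hSm i j)).const_mul _
    · simp only [h, if_false]
      exact measurable_const
  have htv : ∀ i j, ∫⁻ x, term i j x ≤ ENNReal.ofReal ((2 * σ i) ^ p0 * (C / σ i ^ n)) * volume K := by
    intro i j
    simp only [hterm]
    by_cases h : cond i j
    · simp only [h, if_true]
      rw [lintegral_const_mul _ (measurable_one.indicator (hSm i j)),
        lintegral_indicator_one (hSm i j), ENNReal.ofReal_mul (by have := hσ0 i; positivity),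
        mul_assoc]
      gcongr
      exact hSv i j h
    · simp only [h, if_false, lintegral_zero]
      exact zero_le
  have hBm : MeasurableSet (dil K y0 (1 + Γ)) :=
    (isOpen_dil hK y0 (by linarith)).measurableSet
  refine ⟨fun x => (dil K y0 (1 + Γ)).indicator 1 x + ∑' i, ∑ j ∈ Finset.range (N i), term i j x,
    ?_, ?_, ?_⟩
  · exact (measurable_one.indicator hBm).add (Measurable.ennreal_tsum fun i =>
      Finset.measurable_sum _ fun j _ => htm i j)
  · rw [lintegral_add_left (measurable_one.indicator hBm), lintegral_indicator_one hBm,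
      lintegral_tsum (fun i => (Finset.measurable_sum _ fun j _ => htm i j).aemeasurable), add_mul]
    gcongr
    · exact volume_dil_le hK hKc ⟨y0, hy0⟩ hKb y0 (by linarith)
    · rw [ENNReal.ofReal_tsum_of_nonneg ha0 hasum, ← ENNReal.tsum_mul_right]
      apply ENNReal.tsum_le_tsum
      intro i
      rw [lintegral_finsetSum _ (fun j _ => htm i j)]
      refine (Finset.sum_le_sum fun j _ => htv i j).trans ?_
      rw [Finset.sum_const, Finset.card_range, nsmul_eq_mul, ha]
      have e : ENNReal.ofReal (((N i : ℕ) : ℝ) * ((2 * σ i) ^ p0 * (C / σ i ^ n)))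
          = ((N i : ℕ) : ℝ≥0∞) * ENNReal.ofReal ((2 * σ i) ^ p0 * (C / σ i ^ n)) := by
        rw [ENNReal.ofReal_mul (by positivity), ENNReal.ofReal_natCast]
      rw [e, mul_assoc]
  · intro x t ht
    set τ := volume (Sl γ α β K x t) with hτ
    have hτ1 : τ ≤ 1 := by
      refine (measure_mono (t := Ioo α β) (fun s hs => hs.1)).trans ?_
      rw [Real.volume_Ioo]
      exact (ENNReal.ofReal_le_ofReal hP.len).trans (by simp)
    rcases eq_or_ne τ 0 with h0 | h0
    · rw [h0, ENNReal.zero_rpow_of_pos hp00]; exact zero_le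
    have hτt : τ ≠ ⊤ := (hτ1.trans_lt ENNReal.one_lt_top).ne
    rcases le_or_gt t r with htr | htr
    · -- small t
      have hne : (Sl γ α β K x t).Nonempty := by
        rw [nonempty_iff_ne_empty]
        intro he
        rw [hτ, he, measure_empty] at h0
        exact h0 rfl
      obtain ⟨s, hs1, hs2⟩ := hne
      have hd : t • γ s ∈ Γ • (K - K) := by
        apply mem_smul_diff (by linarith) hball
        rw [norm_smul, Real.norm_eq_abs, abs_of_pos ht]
        have := hP.bound s hs1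
        calc t * ‖γ s‖ < t * Γ := mul_lt_mul_of_pos_left this ht
          _ ≤ r * Γ := by gcongr
          _ = Γ * r := mul_comm _ _
      have hx := add_diff_subset hKc hy0 (by linarith) hs2 hd
      rw [sub_add_cancel] at hx
      have h1 : τ ^ p0 ≤ 1 := ENNReal.rpow_le_one hτ1 hp00.le
      refine h1.trans (le_trans ?_ le_self_add)
      rw [indicator_of_mem hx]; exact le_rfl
    · -- large t
      obtain ⟨j, hj1, hj2⟩ := exists_nat_pow_near (x := t / r) (y := 2)
        ((one_le_div hr).2 htr.le) (by norm_num)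
      rw [le_div_iff₀ hr] at hj1
      rw [div_lt_iff₀ hr] at hj2
      have hτr0 : 0 < τ.toReal := ENNReal.toReal_pos h0 hτt
      have hτr1 : τ.toReal ≤ 1 := ENNReal.toReal_le_of_le_ofReal zero_le_one (by simpa using hτ1)
      obtain ⟨i, hi1, hi2⟩ := exists_nat_pow_near_of_lt_one hτr0 hτr1
        (by norm_num : (0 : ℝ) < 1 / 2) (by norm_num : (1 / 2 : ℝ) < 1)
      obtain ⟨hxS, hc2⟩ := hSx (i + 1) j x t (by linarith) (by rw [pow_succ] at hj2; linarith) (by
        rw [← hτ, ← ENNReal.ofReal_toReal hτt]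
        exact (ENNReal.ofReal_lt_ofReal_iff hτr0).2 hi1)
      have hjN : j < N (i + 1) := by
        have h1 : 2 * r / (r * 2 ^ j) = 2 / 2 ^ j := by field_simp
        have h2 : σ (i + 1) ^ n = 1 / 2 ^ (n * (i + 1)) := by
          simp only [hσ]
          rw [← pow_mul, mul_comm (i + 1) n, one_div_pow]
        rw [h1, h2, mul_div_assoc', div_le_div_iff₀ (by positivity) (by positivity), one_mul] at hc2
        have h3 : (2 : ℝ) ^ j < 2 ^ (n * (i + 1) + N0 + 1) := by
          calc (2 : ℝ) ^ j ≤ M * 2 * 2 ^ (n * (i + 1)) := hc2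
            _ < 2 ^ N0 * 2 * 2 ^ (n * (i + 1)) := by gcongr
            _ = 2 ^ (n * (i + 1) + N0 + 1) := by ring
        have h4 := (pow_lt_pow_iff_right₀ (by norm_num : (1 : ℝ) < 2)).1 h3
        simp only [hN]
        omega
      have h5 : term (i + 1) j x = ENNReal.ofReal ((2 * σ (i + 1)) ^ p0) := by
        simp only [hterm]
        rw [if_pos hc2, indicator_of_mem hxS, Pi.one_apply, mul_one]
      have h6 : τ ^ p0 ≤ term (i + 1) j x := by
        rw [h5, ← ENNReal.ofReal_toReal hτt, ENNReal.ofReal_rpow_of_pos hτr0]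
        apply ENNReal.ofReal_le_ofReal
        apply Real.rpow_le_rpow hτr0.le _ hp00.le
        refine hi2.trans (le_of_eq ?_)
        simp only [hσ]
        rw [pow_succ]; ring
      refine h6.trans ?_
      refine le_trans ?_ le_add_self
      refine le_trans ?_ (ENNReal.le_tsum (i + 1))
      exact Finset.single_le_sum (f := fun j => term (i + 1) j x) (fun _ _ => zero_le)
        (Finset.mem_range.2 hjN)

end Pool.Agent.MC
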