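import Pool.Agent.Lib_helper71.MC.Asm2

/-!
A nondegenerate curve is not contained in the span of its derivatives of order `1, ..., n - 1`.
-/

open MeasureTheory Set Filter Topology Metric
open scoped ENNReal Pointwise RealInnerProductSpace ContDiff

namespace Pool.Agent.MC

variable {n : ℕ}

/-- Dual vectors. -/
theorem exists_dual {v : Fin n → En n} (hv : LinearIndependent ℝ v) (i : Fin n) :
    ∃ e : En n, ∀ j, ⟪e, v j⟫ = if j = i then 1 else 0 := by
  classical
  have hcard : Fintype.card (Fin n) = Module.finrank ℝ (En n) := by simp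
  haveI : Nonempty (Fin n) := ⟨i⟩
  set B := basisOfLinearIndependentOfCardEqFinrank hv hcard with hB
  have hBv : ∀ j, B j = v j := fun j => by
    rw [hB, coe_basisOfLinearIndependentOfCardEqFinrank]
  refine ⟨(InnerProductSpace.toDual ℝ (En n)).symm (LinearMap.toContinuousLinearMap (B.coord i)),
    fun j => ?_⟩
  rw [InnerProductSpace.toDual_symm_apply, LinearMap.coe_toContinuousLinearMap', ← hBv j,
    Module.Basis.coord_apply, Module.Basis.repr_self, Finsupp.single_apply]

/-- The coordinates with respect to the derivatives. -/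
theorem exists_coord (γ : ℝ → En n) (hγ : ContDiff ℝ ∞ γ) :
    ∃ c : ℝ → Fin n → ℝ, ∀ s, LinearIndependent ℝ
        (fun k : Fin n => iteratedDeriv ((k : ℕ) + 1) γ s) →
      γ s = ∑ j, c s j • iteratedDeriv ((j : ℕ) + 1) γ s ∧
      ∀ j, DifferentiableAt ℝ (fun s => c s j) s := by
  classical
  set G : ℝ → (En n →L[ℝ] En n) := fun s =>
    ∑ j : Fin n, (EuclideanSpace.proj j : En n →L[ℝ] ℝ).smulRight
      (iteratedDeriv ((j : ℕ) + 1) γ s) with hG
  have hGapp : ∀ s x, G s x = ∑ j : Fin n, x j • iteratedDeriv ((j : ℕ) + 1) γ s := by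
    intro s x
    simp only [hG, ContinuousLinearMap.sum_apply, ContinuousLinearMap.smulRight_apply]
    rfl
  have hGd : Differentiable ℝ G := by
    intro s
    simp only [hG]
    refine DifferentiableAt.fun_sum fun j _ => ?_
    have h1 : DifferentiableAt ℝ (iteratedDeriv ((j : ℕ) + 1) γ) s :=
      (hγ.differentiable_iteratedDeriv _ (by exact_mod_cast WithTop.coe_lt_top _)) s
    exact ((ContinuousLinearMap.smulRightL ℝ (En n) (En n)
      (EuclideanSpace.proj j : En n →L[ℝ] ℝ)).differentiableAt).comp s h1
  refine ⟨fun s j => (Ring.inverse (G s) (γ s)) j, ?_⟩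
  intro s hs
  have hinj : Function.Injective (G s) := by
    rw [injective_iff_map_eq_zero]
    intro x hx
    rw [hGapp] at hx
    ext j
    exact Fintype.linearIndependent_iff.1 hs (fun j => x j) hx j
  have hunit : IsUnit (G s) := by
    rw [ContinuousLinearMap.isUnit_iff_bijective]
    exact ⟨hinj, (LinearMap.injective_iff_surjective (f := (G s : En n →ₗ[ℝ] En n))).1 hinj⟩
  constructor
  · have h1 : G s (Ring.inverse (G s) (γ s)) = γ s := by
      have h2 := Ring.mul_inverse_cancel (G s) hunit
      have h3 := congrArg (fun T : En n →L[ℝ] En n => T (γ s)) h2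
      simpa using h3
    conv_lhs => rw [← h1]
    exact hGapp s _
  · intro j
    have h1 : DifferentiableAt ℝ (fun s => Ring.inverse (G s)) s :=
      (differentiableAt_inverse hunit).comp s (hGd s)
    have h2 : DifferentiableAt ℝ γ s := (hγ.differentiable (by simp)) s
    have h3 : DifferentiableAt ℝ (fun s => Ring.inverse (G s) (γ s)) s := h1.clm_apply h2
    exact ((EuclideanSpace.proj j : En n →L[ℝ] ℝ).differentiableAt).comp s h3

theorem exists_transversal (hn : 2 ≤ n) (γ : ℝ → En n) (hγ : ContDiff ℝ ∞ γ) (J : Set ℝ)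
    (hJ : IsOpen J) (hJn : J.Nonempty)
    (hnd : ∀ s ∈ J, LinearIndependent ℝ (fun k : Fin n => iteratedDeriv ((k : ℕ) + 1) γ s)) :
    ∃ s0 ∈ J, ∃ e : En n, (∀ k < n - 1, ⟪e, iteratedDeriv (k + 1) γ s0⟫ = 0) ∧
      ⟪e, γ s0⟫ = 1 := by
  classical
  obtain ⟨c, hc⟩ := exists_coord γ hγ
  by_cases hex : ∃ s ∈ J, c s ⟨n - 1, by omega⟩ ≠ 0
  · obtain ⟨s, hs, hcs⟩ := hex
    obtain ⟨e, he⟩ := exists_dual (hnd s hs) ⟨n - 1, by omega⟩
    refine ⟨s, hs, (c s ⟨n - 1, by omega⟩)⁻¹ • e, ?_, ?_⟩
    · intro k hk
      have h1 := he ⟨k, by omega⟩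
      rw [if_neg (by intro h; rw [Fin.mk.injEq] at h; omega)] at h1
      rw [real_inner_smul_left]
      simp only at h1
      rw [h1, mul_zero]
    · rw [real_inner_smul_left]
      have h1 : ⟪e, γ s⟫ = c s ⟨n - 1, by omega⟩ := by
        conv_lhs => rw [(hc s (hnd s hs)).1]
        rw [inner_sum]
        simp only [real_inner_smul_right]
        rw [Finset.sum_eq_single (⟨n - 1, by omega⟩ : Fin n)]
        · rw [he, if_pos rfl, mul_one]
        · intro j _ hj
          rw [he, if_neg hj, mul_zero]
        · intro h
          exact absurd (Finset.mem_univ _) h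
      rw [h1, inv_mul_cancel₀ hcs]
  · exfalso
    push Not at hex
    -- all coordinates vanish
    have key : ∀ m : ℕ, m < n → ∀ j : Fin n, n - 1 - m ≤ (j : ℕ) → ∀ s ∈ J, c s j = 0 := by
      intro m
      induction m with
      | zero =>
        intro _ j hj s hs
        have : j = ⟨n - 1, by omega⟩ := Fin.ext (by have := j.2; simp only at hj ⊢; omega)
        rw [this]
        exact hex s hs
      | succ m ih =>
        intro hm j hj s hs
        by_cases hj2 : n - 1 - m ≤ (j : ℕ)
        · exact ih (by omega) j hj2 s hs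
        have hjm : (j : ℕ) + 1 = n - 1 - m := by omega
        obtain ⟨e, he⟩ := exists_dual (hnd s hs) ⟨(j : ℕ) + 1, by omega⟩
        have hd : ∀ i : Fin n, HasDerivAt (fun s => c s i • iteratedDeriv ((i : ℕ) + 1) γ s)
            (c s i • iteratedDeriv ((i : ℕ) + 2) γ s +
              deriv (fun s => c s i) s • iteratedDeriv ((i : ℕ) + 1) γ s) s := by
          intro i
          have h1 := ((hc s (hnd s hs)).2 i).hasDerivAt
          have h2 : HasDerivAt (iteratedDeriv ((i : ℕ) + 1) γ)
              (iteratedDeriv ((i : ℕ) + 2) γ s) s := by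
            have h3 : DifferentiableAt ℝ (iteratedDeriv ((i : ℕ) + 1) γ) s :=
              (hγ.differentiable_iteratedDeriv _ (by exact_mod_cast WithTop.coe_lt_top _)) s
            have h4 := h3.hasDerivAt
            rw [iteratedDeriv_succ (n := (i : ℕ) + 1)]
            exact h4
          exact h1.smul h2
        have hsum : HasDerivAt γ (∑ i : Fin n, (c s i • iteratedDeriv ((i : ℕ) + 2) γ s +
              deriv (fun s => c s i) s • iteratedDeriv ((i : ℕ) + 1) γ s)) s := by
          have h5 := HasDerivAt.fun_sum (u := Finset.univ) fun i _ => hd i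
          refine h5.congr_of_eventuallyEq ?_
          filter_upwards [hJ.mem_nhds hs] with u hu
          exact (hc u (hnd u hu)).1
        have hd1 : HasDerivAt γ (iteratedDeriv 1 γ s) s := by
          have h3 : DifferentiableAt ℝ γ s := (hγ.differentiable (by simp)) s
          rw [iteratedDeriv_one]
          exact h3.hasDerivAt
        have heq := hd1.unique hsum
        have h6 := congrArg (fun v => ⟪e, v⟫) heq
        rw [inner_sum] at h6
        have h7 : ⟪e, iteratedDeriv 1 γ s⟫ = 0 := by
          have h8 := he ⟨0, by omega⟩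
          rw [if_neg (by intro h; rw [Fin.mk.injEq] at h; omega)] at h8
          exact h8
        have h9 : ∀ i : Fin n, ⟪e, c s i • iteratedDeriv ((i : ℕ) + 2) γ s +
              deriv (fun s => c s i) s • iteratedDeriv ((i : ℕ) + 1) γ s⟫ =
            if i = j then c s j else 0 := by
          intro i
          rw [inner_add_right, real_inner_smul_right, real_inner_smul_right]
          have h10 : deriv (fun s => c s i) s * ⟪e, iteratedDeriv ((i : ℕ) + 1) γ s⟫ = 0 := by
            have h11 := he i
            by_cases hi : i = ⟨(j : ℕ) + 1, by omega⟩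
            · have h12 : deriv (fun s => c s i) s = 0 := by
                have h13 : (fun s => c s i) =ᶠ[𝓝 s] fun _ => 0 := by
                  filter_upwards [hJ.mem_nhds hs] with u hu
                  exact ih (by omega) i (by rw [hi]; simp only; omega) u hu
                rw [h13.deriv_eq, deriv_const]
              rw [h12, zero_mul]
            · rw [h11, if_neg hi, mul_zero]
          rw [h10, add_zero]
          by_cases hij : i = j
          · rw [if_pos hij, hij]
            have h11 := he ⟨(j : ℕ) + 1, by omega⟩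
            rw [if_pos rfl] at h11
            have h12 : ⟪e, iteratedDeriv ((j : ℕ) + 2) γ s⟫ = 1 := h11
            rw [h12, mul_one]
          · rw [if_neg hij]
            rcases lt_or_ge (i : ℕ) j with hlt | hge
            · have h11 := he ⟨(i : ℕ) + 1, by omega⟩
              rw [if_neg (by intro h; rw [Fin.mk.injEq] at h; omega)] at h11
              have h12 : ⟪e, iteratedDeriv ((i : ℕ) + 2) γ s⟫ = 0 := h11
              rw [h12, mul_zero]
            · have hne : (i : ℕ) ≠ j := fun h => hij (Fin.ext h)
              rw [ih (by omega) i (by omega) s hs, zero_mul]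
        simp only [h9] at h6
        rw [h7, Finset.sum_ite_eq' Finset.univ j, if_pos (Finset.mem_univ j)] at h6
        exact h6.symm
    have hzero : ∀ s ∈ J, γ s = 0 := by
      intro s hs
      rw [(hc s (hnd s hs)).1]
      refine Finset.sum_eq_zero fun j _ => ?_
      rw [key (n - 1) (by omega) j (by omega) s hs, zero_smul]
    obtain ⟨s, hs⟩ := hJn
    have h1 : iteratedDeriv 1 γ s = 0 := by
      rw [iteratedDeriv_one]
      have h13 : γ =ᶠ[𝓝 s] fun _ => 0 := by
        filter_upwards [hJ.mem_nhds hs] with u hu
        exact hzero u hu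
      rw [h13.deriv_eq, deriv_const]
    exact (hnd s hs).ne_zero ⟨0, by omega⟩ h1

end Pool.Agent.MC
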