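import Pool.Agent.Lib_helper71.MC.Neg1

/-!
Elementary estimates for the counterexample.
-/

open MeasureTheory Set Filter Topology Metric
open scoped ENNReal Pointwise RealInnerProductSpace ContDiff

namespace Pool.Agent.MC

variable {n : ℕ}

/-- Order of contact. -/
theorem taylor_bound (m : ℕ) : ∀ (h : ℝ → ℝ), ContDiff ℝ ∞ h → ∀ (s0 r C : ℝ), 0 ≤ C →
    (∀ k, k < m → iteratedDeriv (k + 1) h s0 = 0) →
    (∀ s, |s - s0| ≤ r → |iteratedDeriv (m + 1) h s| ≤ C) →
    ∀ s, |s - s0| ≤ r → |h s - h s0| ≤ C * |s - s0| ^ (m + 1) := by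
  induction m with
  | zero =>
    intro h hh s0 r C hC _ hb s hs
    have hmv := Convex.norm_image_sub_le_of_norm_deriv_le (f := h) (C := C)
      (s := closedBall s0 |s - s0|) (x := s0) (y := s)
      (fun u _ => (hh.differentiable (by simp)) u)
      (fun u hu => by
        rw [mem_closedBall, Real.dist_eq] at hu
        have := hb u (hu.trans hs)
        rwa [zero_add, iteratedDeriv_one] at this)
      (convex_closedBall _ _) (mem_closedBall_self (abs_nonneg _))
      (by rw [mem_closedBall, Real.dist_eq])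
    rw [Real.norm_eq_abs, Real.norm_eq_abs] at hmv
    rw [zero_add, pow_one]
    exact hmv
  | succ m ih =>
    intro h hh s0 r C hC hz hb s hs
    have hd : ContDiff ℝ ∞ (deriv h) := (contDiff_infty_iff_deriv.1 hh).2
    have hder0 : deriv h s0 = 0 := by
      have := hz 0 (by omega)
      rwa [zero_add, iteratedDeriv_one] at this
    have hstep := ih (deriv h) hd s0 r C hC (fun k hk => by
        rw [← iteratedDeriv_succ']
        exact hz (k + 1) (by omega)) (fun u hu => by
        rw [← iteratedDeriv_succ']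
        exact hb u hu)
    have hmv := Convex.norm_image_sub_le_of_norm_deriv_le (f := h)
      (C := C * |s - s0| ^ (m + 1)) (s := closedBall s0 |s - s0|) (x := s0) (y := s)
      (fun u _ => (hh.differentiable (by simp)) u)
      (fun u hu => by
        rw [mem_closedBall, Real.dist_eq] at hu
        have h2 := hstep u (hu.trans hs)
        rw [hder0, sub_zero] at h2
        rw [Real.norm_eq_abs]
        refine h2.trans ?_
        gcongr)
      (convex_closedBall _ _) (mem_closedBall_self (abs_nonneg _))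
      (by rw [mem_closedBall, Real.dist_eq])
    rw [Real.norm_eq_abs, Real.norm_eq_abs] at hmv
    calc |h s - h s0| ≤ C * |s - s0| ^ (m + 1) * |s - s0| := hmv
      _ = C * |s - s0| ^ (m + 1 + 1) := by ring

/-- Functions of one coordinate, integrated over a ball. -/
theorem slab_int (e : En n) (he : e ≠ 0) (F : ℝ → ℝ≥0∞) (hF : Measurable F) (R : ℝ) (Q : ℝ≥0∞)
    (hQ : ∀ u, ∫⁻ v in Icc (0 : ℝ) 1, F (u - v) ≤ Q) :
    ∫⁻ y in closedBall (0 : En n) R, F ⟪e, y⟫ ≤
      volume (closedBall (0 : En n) (R + ‖e‖⁻¹)) * Q := by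
  have hne : 0 < ‖e‖ := norm_pos_iff.2 he
  set e' : En n := (‖e‖ ^ 2)⁻¹ • e with he'
  have h1 : ⟪e, e'⟫ = 1 := by
    rw [he', real_inner_smul_right, real_inner_self_eq_norm_sq]
    exact inv_mul_cancel₀ (by positivity)
  have h2 : ‖e'‖ = ‖e‖⁻¹ := by
    rw [he', norm_smul, norm_inv, norm_pow, norm_norm]
    field_simp
  have hFm : Measurable fun z : En n × ℝ => F (⟪e, z.1⟫ - z.2) := by
    apply hF.comp
    exact (by fun_prop : Continuous fun z : En n × ℝ => ⟪e, z.1⟫ - z.2).measurable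
  have hstep : ∀ v ∈ Icc (0 : ℝ) 1, ∫⁻ y in closedBall (0 : En n) R, F ⟪e, y⟫ ≤
      ∫⁻ z in closedBall (0 : En n) (R + ‖e‖⁻¹), F (⟪e, z⟫ - v) := by
    intro v hv
    rw [← lintegral_indicator measurableSet_closedBall,
      ← lintegral_indicator measurableSet_closedBall,
      ← lintegral_sub_right_eq_self _ (v • e')]
    apply lintegral_mono
    intro z
    show (closedBall (0 : En n) R).indicator (fun y => F ⟪e, y⟫) (z - v • e') ≤
      (closedBall (0 : En n) (R + ‖e‖⁻¹)).indicator (fun z => F (⟪e, z⟫ - v)) z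
    by_cases hz : z - v • e' ∈ closedBall (0 : En n) R
    · have hz2 : z ∈ closedBall (0 : En n) (R + ‖e‖⁻¹) := by
        rw [mem_closedBall_zero_iff] at hz ⊢
        calc ‖z‖ = ‖(z - v • e') + v • e'‖ := by rw [sub_add_cancel]
          _ ≤ ‖z - v • e'‖ + ‖v • e'‖ := norm_add_le _ _
          _ ≤ R + ‖e‖⁻¹ := by
            rw [norm_smul, h2, Real.norm_eq_abs, abs_of_nonneg hv.1]
            have : v * ‖e‖⁻¹ ≤ ‖e‖⁻¹ := mul_le_of_le_one_left (by positivity) hv.2
            linarith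
      rw [indicator_of_mem hz, indicator_of_mem hz2, inner_sub_right, real_inner_smul_right, h1,
        mul_one]
    · rw [indicator_of_notMem hz]
      exact zero_le
  calc ∫⁻ y in closedBall (0 : En n) R, F ⟪e, y⟫
      = ∫⁻ _ in Icc (0 : ℝ) 1, ∫⁻ y in closedBall (0 : En n) R, F ⟪e, y⟫ := by
        rw [setLIntegral_const, Real.volume_Icc, sub_zero, ENNReal.ofReal_one, mul_one]
    _ ≤ ∫⁻ v in Icc (0 : ℝ) 1, ∫⁻ z in closedBall (0 : En n) (R + ‖e‖⁻¹), F (⟪e, z⟫ - v) :=
        setLIntegral_mono' measurableSet_Icc hstep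
    _ = ∫⁻ z in closedBall (0 : En n) (R + ‖e‖⁻¹), ∫⁻ v in Icc (0 : ℝ) 1, F (⟪e, z⟫ - v) := by
        rw [lintegral_lintegral_swap]
        exact (hFm.comp measurable_swap).aemeasurable
    _ ≤ ∫⁻ _ in closedBall (0 : En n) (R + ‖e‖⁻¹), Q := lintegral_mono fun z => hQ _
    _ = _ := by rw [setLIntegral_const, mul_comm]

lemma int_inv (δ : ℝ) (hδ : 0 < δ) (κ : ℝ) (hκ : 0 < κ) (η : ℝ) (hη : 0 ≤ η) :
    ∫ w in (0 : ℝ)..η, (κ * w + δ)⁻¹ = κ⁻¹ * Real.log ((κ * η + δ) / δ) := by
  rw [intervalIntegral.integral_comp_mul_add (fun w => w⁻¹) hκ.ne' δ, mul_zero, zero_add,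
    smul_eq_mul, integral_inv_of_pos hδ (by positivity)]

lemma cont_inv (δ : ℝ) (hδ : 0 < δ) (κ : ℝ) (hκ : 0 < κ) :
    Continuous fun w : ℝ => (κ * |w| + δ)⁻¹ := by
  apply Continuous.inv₀ (by fun_prop)
  intro w
  have := abs_nonneg w
  positivity

lemma one_dim_int (δ : ℝ) (hδ : 0 < δ) (u : ℝ) :
    ∫⁻ v in Icc (0 : ℝ) 1, ENNReal.ofReal ((1 * |u - v| + δ)⁻¹) ≤
      ENNReal.ofReal (1 + 2 * Real.log ((1 + δ) / δ)) := by
  set F : ℝ → ℝ≥0∞ := fun w => ENNReal.ofReal ((1 * |w| + δ)⁻¹) with hF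
  have hFc : Continuous F := ENNReal.continuous_ofReal.comp (cont_inv δ hδ 1 one_pos)
  have hlog : 0 ≤ Real.log ((1 + δ) / δ) := Real.log_nonneg (by
    rw [le_div_iff₀ hδ]; linarith)
  have h01 : ∫⁻ w in Icc (0 : ℝ) 1, F w = ENNReal.ofReal (Real.log ((1 + δ) / δ)) := by
    have h1 := int_inv δ hδ 1 one_pos 1 zero_le_one
    rw [inv_one, one_mul, mul_one, intervalIntegral.integral_of_le zero_le_one,
      ← integral_Icc_eq_integral_Ioc] at h1
    rw [← h1, ofReal_integral_eq_lintegral_ofReal]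
    · apply setLIntegral_congr_fun measurableSet_Icc
      intro w hw
      show ENNReal.ofReal ((1 * |w| + δ)⁻¹) = ENNReal.ofReal ((1 * w + δ)⁻¹)
      rw [abs_of_nonneg hw.1]
    · have h2 : ContinuousOn (fun w : ℝ => (1 * w + δ)⁻¹) (Icc 0 1) := by
        apply ContinuousOn.inv₀ (by fun_prop)
        intro w hw
        have := hw.1
        positivity
      exact h2.integrableOn_Icc
    · filter_upwards [ae_restrict_mem measurableSet_Icc] with w hw
      have := hw.1
      show 0 ≤ (1 * w + δ)⁻¹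
      positivity
  have hm10 : ∫⁻ w in Icc (-1 : ℝ) 0, F w = ∫⁻ w in Icc (0 : ℝ) 1, F w := by
    rw [← lintegral_indicator measurableSet_Icc, ← lintegral_indicator measurableSet_Icc,
      ← lintegral_neg_eq_self]
    congr 1
    funext w
    by_cases hw : w ∈ Icc (0 : ℝ) 1
    · have hw2 : -w ∈ Icc (-1 : ℝ) 0 := ⟨by linarith [hw.2], by linarith [hw.1]⟩
      rw [indicator_of_mem hw, indicator_of_mem hw2, hF]
      simp only [abs_neg]
    · have hw2 : -w ∉ Icc (-1 : ℝ) 0 := fun h => hw ⟨by linarith [h.2], by linarith [h.1]⟩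
      rw [indicator_of_notMem hw, indicator_of_notMem hw2]
  have hbd : ∀ w, F w ≤ 1 + (Icc (-1 : ℝ) 1).indicator F w := by
    intro w
    by_cases hw : w ∈ Icc (-1 : ℝ) 1
    · rw [indicator_of_mem hw]
      exact le_add_self
    · rw [indicator_of_notMem hw, add_zero]
      rw [mem_Icc, ← abs_le, not_le] at hw
      show ENNReal.ofReal ((1 * |w| + δ)⁻¹) ≤ 1
      rw [← ENNReal.ofReal_one]
      apply ENNReal.ofReal_le_ofReal
      apply inv_le_one_of_one_le₀
      linarith
  calc ∫⁻ v in Icc (0 : ℝ) 1, F (u - v)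
      ≤ ∫⁻ v in Icc (0 : ℝ) 1, (1 + (Icc (-1 : ℝ) 1).indicator F (u - v)) :=
        lintegral_mono fun v => hbd _
    _ = 1 + ∫⁻ v in Icc (0 : ℝ) 1, (Icc (-1 : ℝ) 1).indicator F (u - v) := by
        rw [lintegral_add_left measurable_const, setLIntegral_const, Real.volume_Icc, sub_zero,
          ENNReal.ofReal_one, mul_one]
    _ ≤ 1 + ∫⁻ v, (Icc (-1 : ℝ) 1).indicator F (u - v) := by
        gcongr
        exact Measure.restrict_le_self
    _ = 1 + ∫⁻ w in Icc (-1 : ℝ) 1, F w := by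
        rw [lintegral_sub_left_eq_self, lintegral_indicator measurableSet_Icc]
    _ ≤ 1 + ((∫⁻ w in Icc (-1 : ℝ) 0, F w) + ∫⁻ w in Icc (0 : ℝ) 1, F w) := by
        refine add_le_add le_rfl ?_
        have : Icc (-1 : ℝ) 1 = Icc (-1 : ℝ) 0 ∪ Icc (0 : ℝ) 1 :=
          (Icc_union_Icc_eq_Icc (by norm_num) (by norm_num)).symm
        rw [this]
        exact lintegral_union_le _ _ _
    _ = ENNReal.ofReal (1 + 2 * Real.log ((1 + δ) / δ)) := by
        rw [hm10, h01, ← ENNReal.ofReal_add hlog hlog, ← ENNReal.ofReal_one,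
          ← ENNReal.ofReal_add zero_le_one (by linarith)]
        congr 1
        ring

/-- The lower bound for the integral along the curve. -/
lemma low_int (ε κ η s0 : ℝ) (hε : 0 < ε) (hκ : 0 < κ) (hη : 0 < η) :
    κ⁻¹ * Real.log ((κ * η + ε) / ε) ≤
      ∫ s in Ioo (s0 - η) (s0 + η), (κ * |s - s0| + ε)⁻¹ := by
  have hc : Continuous fun s : ℝ => (κ * |s - s0| + ε)⁻¹ :=
    (cont_inv ε hε κ hκ).comp (by fun_prop : Continuous fun s : ℝ => s - s0)
  have h1 := int_inv ε hε κ hκ η hη.le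
  have h2 : ∫ s in s0..(s0 + η), (κ * |s - s0| + ε)⁻¹ = ∫ w in (0 : ℝ)..η, (κ * w + ε)⁻¹ := by
    have h3 := intervalIntegral.integral_comp_sub_right (a := s0) (b := s0 + η)
      (fun w => (κ * |w| + ε)⁻¹) s0
    rw [sub_self, add_sub_cancel_left] at h3
    rw [h3]
    apply intervalIntegral.integral_congr
    intro w hw
    rw [uIcc_of_le hη.le] at hw
    show (κ * |w| + ε)⁻¹ = (κ * w + ε)⁻¹
    rw [abs_of_nonneg hw.1]
  rw [← h1, ← h2, intervalIntegral.integral_of_le (by linarith),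
    integral_Ioc_eq_integral_Ioo]
  apply setIntegral_mono_set
  · exact hc.integrableOn_Icc.mono_set Ioo_subset_Icc_self
  · refine Eventually.of_forall fun s => ?_
    have := abs_nonneg (s - s0)
    show 0 ≤ (κ * |s - s0| + ε)⁻¹
    positivity
  · exact (Ioo_subset_Ioo (by linarith) le_rfl).eventuallyLE

end Pool.Agent.MC
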