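import Pool.Agent.Lib_helper71.MC.Neg2

/-!
The test functions for the failure of the maximal estimate.
-/

open MeasureTheory Set Filter Topology Metric
open scoped ENNReal Pointwise RealInnerProductSpace ContDiff

namespace Pool.Agent.MC

variable {n : ℕ}

/-- Functions all of whose superlevel sets are convex. -/
def CvxLev (f : En n → ℝ) : Prop := ∀ v : ℝ, 0 < v → Convex ℝ {y | v < |f y|}

/-- The test function. -/
noncomputable def tf (e : En n) (R ε : ℝ) (y : En n) : ℝ :=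
  min ((|⟪e, y⟫| ^ (1 / (n : ℝ)) + ε)⁻¹) (ε⁻¹ * max 0 (R + 1 - ‖y‖))

section

variable {e : En n} {R ε : ℝ}

lemma den_pos (hε : 0 < ε) (y : En n) : 0 < |⟪e, y⟫| ^ (1 / (n : ℝ)) + ε := by
  have : 0 ≤ |⟪e, y⟫| ^ (1 / (n : ℝ)) := Real.rpow_nonneg (abs_nonneg _) _
  linarith

lemma continuous_tf (hε : 0 < ε) : Continuous (tf e R ε) := by
  unfold tf
  apply Continuous.min
  · apply Continuous.inv₀
    · have h1 : Continuous fun y : En n => |⟪e, y⟫| := by fun_prop
      exact (h1.rpow_const fun _ => Or.inr (by positivity)).add continuous_const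
    · exact fun y => (den_pos hε y).ne'
  · fun_prop

lemma tf_nonneg (hε : 0 < ε) (y : En n) : 0 ≤ tf e R ε y := by
  unfold tf
  have h1 := den_pos (e := e) hε y
  exact le_min (by positivity) (by positivity)

lemma tf_le (hε : 0 < ε) (y : En n) : tf e R ε y ≤ (|⟪e, y⟫| ^ (1 / (n : ℝ)) + ε)⁻¹ :=
  min_le_left _ _

lemma tf_le' (hε : 0 < ε) (y : En n) : tf e R ε y ≤ ε⁻¹ := by
  refine (tf_le hε y).trans (inv_anti₀ hε ?_)
  have : 0 ≤ |⟪e, y⟫| ^ (1 / (n : ℝ)) := Real.rpow_nonneg (abs_nonneg _) _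
  linarith

lemma tf_zero (hε : 0 < ε) (y : En n) (hy : R + 1 ≤ ‖y‖) : tf e R ε y = 0 := by
  unfold tf
  rw [max_eq_left (by linarith), mul_zero]
  have h1 := den_pos (e := e) hε y
  exact min_eq_right (by positivity)

lemma tf_eq (hε : 0 < ε) (y : En n) (hy : ‖y‖ ≤ R) :
    tf e R ε y = (|⟪e, y⟫| ^ (1 / (n : ℝ)) + ε)⁻¹ := by
  unfold tf
  apply min_eq_left
  have h1 : (|⟪e, y⟫| ^ (1 / (n : ℝ)) + ε)⁻¹ ≤ ε⁻¹ := by
    refine inv_anti₀ hε ?_
    have : 0 ≤ |⟪e, y⟫| ^ (1 / (n : ℝ)) := Real.rpow_nonneg (abs_nonneg _) _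
    linarith
  refine h1.trans ?_
  rw [max_eq_right (by linarith)]
  exact le_mul_of_one_le_right (by positivity) (by linarith)

lemma tf_supp (hε : 0 < ε) : Function.support (tf e R ε) ⊆ closedBall 0 (R + 1) := by
  intro y hy
  rw [Function.mem_support] at hy
  rw [mem_closedBall_zero_iff]
  by_contra h
  exact hy (tf_zero hε y (not_le.1 h).le)

lemma tf_compact (hε : 0 < ε) : HasCompactSupport (tf e R ε) :=
  HasCompactSupport.of_support_subset_isCompact (isCompact_closedBall 0 (R + 1)) (tf_supp hε)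

lemma tf_cvx (hn : 0 < n) (hε : 0 < ε) : CvxLev (tf e R ε) := by
  intro v hv
  have hn0 : (0 : ℝ) < n := by exact_mod_cast hn
  have hset : {y | v < |tf e R ε y|} =
      ((fun y => ⟪e, y⟫) ⁻¹' (if 0 < v⁻¹ - ε then
        Ioo (-(v⁻¹ - ε) ^ (n : ℝ)) ((v⁻¹ - ε) ^ (n : ℝ)) else ∅)) ∩ ball 0 (R + 1 - ε * v) := by
    ext y
    rw [mem_setOf_eq, abs_of_nonneg (tf_nonneg hε y), mem_inter_iff, mem_preimage,
      mem_ball_zero_iff]
    unfold tf
    rw [lt_min_iff]
    have hd := den_pos (e := e) hε y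
    have hw : 0 ≤ |⟪e, y⟫| ^ (1 / (n : ℝ)) := Real.rpow_nonneg (abs_nonneg _) _
    have h1 : v < (|⟪e, y⟫| ^ (1 / (n : ℝ)) + ε)⁻¹ ↔ ⟪e, y⟫ ∈ (if 0 < v⁻¹ - ε then
        Ioo (-(v⁻¹ - ε) ^ (n : ℝ)) ((v⁻¹ - ε) ^ (n : ℝ)) else ∅ : Set ℝ) := by
      rw [lt_inv_comm₀ hv hd]
      split_ifs with hr
      · rw [mem_Ioo, ← abs_lt]
        have h2 : |⟪e, y⟫| = (|⟪e, y⟫| ^ (1 / (n : ℝ))) ^ (n : ℝ) := by
          rw [← Real.rpow_mul (abs_nonneg _), one_div, inv_mul_cancel₀ hn0.ne', Real.rpow_one]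
        constructor
        · intro h
          rw [h2]
          exact Real.rpow_lt_rpow hw (by linarith) hn0
        · intro h
          rw [h2] at h
          have := (Real.rpow_lt_rpow_iff hw hr.le hn0).1 h
          linarith
      · constructor
        · intro h
          exact absurd (by linarith : 0 < v⁻¹ - ε) hr
        · intro h
          exact absurd h (notMem_empty _)
    have h3 : v < ε⁻¹ * max 0 (R + 1 - ‖y‖) ↔ ‖y‖ < R + 1 - ε * v := by
      rw [inv_mul_eq_div, lt_div_iff₀ hε, lt_max_iff]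
      constructor
      · rintro (h | h)
        · have : 0 < v * ε := by positivity
          linarith
        · linarith
      · intro h
        right
        linarith
    rw [h1, h3]
  rw [hset]
  apply Convex.inter
  · have hlin : IsLinearMap ℝ (fun y : En n => ⟪e, y⟫) :=
      ⟨fun x y => inner_add_right _ _ _, fun c x => real_inner_smul_right _ _ _⟩
    refine Convex.is_linear_preimage ?_ hlin
    split_ifs
    · exact convex_Ioo _ _
    · exact convex_empty
  · exact convex_ball _ _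

lemma tf_norm (hn : 0 < n) (he : e ≠ 0) (hε : 0 < ε) :
    eLpNorm (tf e R ε) (n : ℝ≥0∞) volume ≤
      (volume (closedBall (0 : En n) (R + 1 + ‖e‖⁻¹)) *
        ENNReal.ofReal (1 + 2 * Real.log ((1 + ε ^ n) / ε ^ n))) ^ (1 / (n : ℝ)) := by
  have hn0 : (0 : ℝ) < n := by exact_mod_cast hn
  have hn1 : (n : ℝ≥0∞) ≠ 0 := by exact_mod_cast hn.ne'
  rw [eLpNorm_eq_lintegral_rpow_enorm_toReal hn1 (ENNReal.natCast_ne_top n),
    ENNReal.toReal_natCast]
  apply ENNReal.rpow_le_rpow _ (by positivity)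
  have h1 : ∀ y, ‖tf e R ε y‖ₑ ^ (n : ℝ) ≤ (closedBall (0 : En n) (R + 1)).indicator
      (fun y => ENNReal.ofReal ((1 * |⟪e, y⟫| + ε ^ n)⁻¹)) y := by
    intro y
    by_cases hy : y ∈ closedBall (0 : En n) (R + 1)
    · rw [indicator_of_mem hy, Real.enorm_eq_ofReal (tf_nonneg hε y),
        ENNReal.ofReal_rpow_of_nonneg (tf_nonneg hε y) hn0.le]
      apply ENNReal.ofReal_le_ofReal
      have hd := den_pos (e := e) hε y
      have hw : 0 ≤ |⟪e, y⟫| ^ (1 / (n : ℝ)) := Real.rpow_nonneg (abs_nonneg _) _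
      have h2 : |⟪e, y⟫| = (|⟪e, y⟫| ^ (1 / (n : ℝ))) ^ n := by
        rw [← Real.rpow_natCast, ← Real.rpow_mul (abs_nonneg _), one_div,
          inv_mul_cancel₀ hn0.ne', Real.rpow_one]
      calc tf e R ε y ^ (n : ℝ) ≤ ((|⟪e, y⟫| ^ (1 / (n : ℝ)) + ε)⁻¹) ^ (n : ℝ) :=
            Real.rpow_le_rpow (tf_nonneg hε y) (tf_le hε y) hn0.le
        _ = ((|⟪e, y⟫| ^ (1 / (n : ℝ)) + ε) ^ n)⁻¹ := by
            rw [Real.rpow_natCast, inv_pow]
        _ ≤ (1 * |⟪e, y⟫| + ε ^ n)⁻¹ := by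
            apply inv_anti₀
            · have := abs_nonneg ⟪e, y⟫
              positivity
            · rw [one_mul]
              conv_lhs => rw [h2]
              exact pow_add_pow_le hw hε.le hn.ne'
    · rw [indicator_of_notMem hy]
      have h0 : tf e R ε y = 0 := by
        by_contra h0
        exact hy (tf_supp hε h0)
      rw [h0, enorm_zero, ENNReal.zero_rpow_of_pos hn0]
  calc ∫⁻ y, ‖tf e R ε y‖ₑ ^ (n : ℝ)
      ≤ ∫⁻ y in closedBall (0 : En n) (R + 1), ENNReal.ofReal ((1 * |⟪e, y⟫| + ε ^ n)⁻¹) := by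
        rw [← lintegral_indicator measurableSet_closedBall]
        exact lintegral_mono h1
    _ ≤ _ := slab_int e he (fun w => ENNReal.ofReal ((1 * |w| + ε ^ n)⁻¹))
        (ENNReal.continuous_ofReal.comp (cont_inv (ε ^ n) (by positivity) 1 one_pos)).measurable
        (R + 1) _ (one_dim_int (ε ^ n) (by positivity))

lemma tf_norm_p (hn : 0 < n) (he : e ≠ 0) (hε : 0 < ε) (p : ℝ≥0∞) (hp : p ≤ n) :
    eLpNorm (tf e R ε) p volume ≤
      (volume (closedBall (0 : En n) (R + 1 + ‖e‖⁻¹)) *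
        ENNReal.ofReal (1 + 2 * Real.log ((1 + ε ^ n) / ε ^ n))) ^ (1 / (n : ℝ)) *
      volume (closedBall (0 : En n) (R + 1)) ^ (1 / p.toReal - 1 / (n : ℝ)) := by
  have h1 := eLpNorm_restrict_eq_of_support_subset (μ := volume) (p := p) (tf_supp (e := e)
    (R := R) hε)
  rw [← h1]
  have h2 := eLpNorm_le_eLpNorm_mul_rpow_measure_univ (μ := volume.restrict
    (closedBall (0 : En n) (R + 1))) hp (continuous_tf (e := e) (R := R) hε).aestronglyMeasurable
  refine h2.trans ?_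
  rw [ENNReal.toReal_natCast, Measure.restrict_apply_univ,
    eLpNorm_restrict_eq_of_support_subset (tf_supp (e := e) (R := R) hε)]
  gcongr
  exact tf_norm hn he hε

end

end Pool.Agent.MC
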