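import Pool.Agent.Lib_helper71.MC.Neg3

/-!
Failure of the maximal estimate for `p ≤ n`.
-/

open MeasureTheory Set Filter Topology Metric
open scoped ENNReal Pointwise RealInnerProductSpace ContDiff

namespace Pool.Agent.MC

variable {n : ℕ}

lemma Mx_ge (γ : ℝ → En n) (hγ : Continuous γ) (ψ : ℝ → ℝ) (hψ : Continuous ψ)
    (hψc : HasCompactSupport ψ) (f : En n → ℝ) (hf : Continuous f) (B : ℝ)
    (hfB : ∀ y, |f y| ≤ B) (x : En n) (t : ℝ) (ht : 0 < t) :
    ∫ s, ψ s * f (x - t • γ s) ≤ Mx γ ψ f x := by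
  have hbdd : BddAbove (range fun t : Ioi (0 : ℝ) => |∫ s : ℝ, ψ s * f (x - (t : ℝ) • γ s)|) := by
    refine ⟨∫ s, ‖ψ s‖ * B, ?_⟩
    rintro _ ⟨t, rfl⟩
    show |∫ s : ℝ, ψ s * f (x - (t : ℝ) • γ s)| ≤ _
    rw [← Real.norm_eq_abs]
    apply norm_integral_le_of_norm_le
    · exact (hψ.integrable_of_hasCompactSupport hψc).norm.mul_const _
    · refine Eventually.of_forall fun s => ?_
      rw [norm_mul]
      gcongr
      exact hfB _
  refine (le_abs_self _).trans ?_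
  exact le_ciSup (f := fun t : Ioi (0 : ℝ) => |∫ s : ℝ, ψ s * f (x - (t : ℝ) • γ s)|) hbdd
    ⟨t, ht⟩

lemma final_real (A B b : ℝ) (m : ℕ) (hA : 0 < A) (hb : 0 ≤ b) (hm : 2 ≤ m)
    (h : ∀ L : ℝ, 0 ≤ L → A * (L + B) ≤ b * (3 + 2 * m * L) ^ (1 / (m : ℝ))) : False := by
  have hm0 : (2 : ℝ) ≤ m := by exact_mod_cast hm
  set q : ℝ := 2 + 2 * m * (b + 1 + |A * B| + A) / A with hq
  have hX : 0 ≤ b + 1 + |A * B| + A := by positivity
  have hq2 : 2 ≤ q := by
    rw [hq]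
    have : 0 ≤ 2 * m * (b + 1 + |A * B| + A) / A := by positivity
    linarith
  set L : ℝ := (q ^ 2 - 3) / (2 * m) with hL
  have hL0 : 0 ≤ L := by
    rw [hL]
    apply div_nonneg
    · nlinarith
    · positivity
  have h1 := h L hL0
  have h2 : 3 + 2 * m * L = q ^ 2 := by
    rw [hL]
    field_simp
    ring
  have h3 : (q ^ 2) ^ (1 / (m : ℝ)) ≤ q := by
    calc (q ^ 2) ^ (1 / (m : ℝ)) ≤ (q ^ 2) ^ (1 / (2 : ℝ)) := by
          apply Real.rpow_le_rpow_of_exponent_le (by nlinarith)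
          exact one_div_le_one_div_of_le (by norm_num) hm0
      _ = q := by
          rw [← Real.sqrt_eq_rpow, Real.sqrt_sq (by linarith)]
  rw [h2] at h1
  have h4 : A * (L + B) ≤ b * q := h1.trans (by gcongr)
  have h5 : A * L = A * (q ^ 2 - 3) / (2 * m) := by
    rw [hL]
    ring
  have h6 : A * q / (2 * m) ≥ b + 1 + |A * B| + A := by
    rw [ge_iff_le, le_div_iff₀ (by positivity), hq]
    have : A * (2 + 2 * m * (b + 1 + |A * B| + A) / A) =
        2 * A + 2 * m * (b + 1 + |A * B| + A) := by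
      field_simp
    rw [this]
    nlinarith
  have h7 : A * (q ^ 2 - 3) / (2 * m) = A * q / (2 * m) * q - 3 * A / (2 * m) := by
    field_simp
  have h8 : 3 * A / (2 * m) ≤ A := by
    rw [div_le_iff₀ (by positivity)]
    nlinarith
  have h9 : (b + 1 + |A * B| + A) * q ≤ A * q / (2 * m) * q := by gcongr
  have h10 : -|A * B| ≤ A * B := neg_abs_le _
  have h11 : 0 ≤ |A * B| := abs_nonneg _
  nlinarith

theorem main_neg (hn : 2 ≤ n) (γ : ℝ → En n) (a b : ℝ) (hγ : ContDiff ℝ ∞ γ)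
    (hnd : ∀ s ∈ Icc a b, LinearIndependent ℝ (fun k : Fin n => iteratedDeriv ((k : ℕ) + 1) γ s))
    (ψ : ℝ → ℝ) (hψ : Continuous ψ) (hsupp : tsupport ψ ⊆ Ioo a b) (hψ0 : ∀ s, 0 ≤ ψ s)
    (hψ1 : ∃ s, ψ s ≠ 0) (p : ℝ≥0∞) (hp1 : 1 ≤ p) (hp : p ≤ n) (C : ℝ≥0∞) (hC : C ≠ ⊤)
    (H : ∀ f : En n → ℝ, Continuous f → HasCompactSupport f → CvxLev f →
      eLpNorm (Mx γ ψ f) p volume ≤ C * eLpNorm f p volume) : False := by
  have hn0 : 0 < n := by omega
  have hnr : (0 : ℝ) < n := by exact_mod_cast hn0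
  have hpt : p ≠ ⊤ := (hp.trans_lt (ENNReal.natCast_lt_top n)).ne
  have hp0 : p ≠ 0 := (zero_lt_one.trans_le hp1).ne'
  have hpr : 0 < p.toReal := ENNReal.toReal_pos hp0 hpt
  have hγc := hγ.continuous
  have hψc : HasCompactSupport ψ :=
    isCompact_Icc.of_isClosed_subset (isClosed_tsupport _) (hsupp.trans Ioo_subset_Icc_self)
  have hψin : ∀ s, ψ s ≠ 0 → s ∈ Icc a b := fun s hs =>
    Ioo_subset_Icc_self (hsupp (subset_tsupport _ hs))
  obtain ⟨s0, hs0, e, he1, he2⟩ := exists_transversal hn γ hγ {s | ψ s ≠ 0}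
    (isOpen_ne_fun hψ continuous_const) hψ1 (fun s hs => hnd s (hψin s hs))
  have he : e ≠ 0 := by
    rintro rfl
    rw [inner_zero_left] at he2
    exact zero_ne_one he2
  have hen : 0 < ‖e‖ := norm_pos_iff.2 he
  have hψs : 0 < ψ s0 := lt_of_le_of_ne (hψ0 s0) (Ne.symm hs0)
  -- a neighbourhood on which `ψ` is large
  obtain ⟨η, hη, hηψ⟩ : ∃ η > 0, ∀ s, |s - s0| ≤ η → ψ s0 / 2 ≤ ψ s := by
    obtain ⟨δ, hδ, h⟩ := Metric.continuousAt_iff.1 hψ.continuousAt (ψ s0 / 2) (by positivity)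
    refine ⟨δ / 2, by positivity, fun s hs => ?_⟩
    have h1 := h (x := s) (by rw [Real.dist_eq]; linarith)
    rw [Real.dist_eq, abs_lt] at h1
    linarith [h1.1]
  have hin : ∀ s, |s - s0| ≤ η → s ∈ Icc a b := by
    intro s hs
    apply hψin
    have := hηψ s hs
    have : 0 < ψ s := by linarith
    exact this.ne'
  -- order of contact
  set φ : ℝ → ℝ := fun s => ⟪e, γ s⟫ with hφ
  have hφs : ContDiff ℝ ∞ φ := contDiff_inner γ hγ e
  obtain ⟨C0, hC0⟩ : ∃ C0, ∀ s ∈ Icc a b, ‖iteratedDeriv n φ s‖ ≤ C0 :=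
    isCompact_Icc.exists_bound_of_continuousOn
      (hφs.continuous_iteratedDeriv n (by exact_mod_cast le_top)).continuousOn
  set C1 : ℝ := max 1 C0 with hC1
  have hC11 : 1 ≤ C1 := le_max_left _ _
  have hn1 : n - 1 + 1 = n := by omega
  have htay : ∀ s, |s - s0| ≤ η → |φ s - 1| ≤ C1 * |s - s0| ^ n := by
    have h1 := taylor_bound (n - 1) φ hφs s0 η C1 (by linarith) (fun k hk => by
        rw [hφ, iteratedDeriv_inner γ hγ e (k + 1)]
        exact he1 k hk) (fun s hs => by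
        rw [hn1]
        exact (hC0 s (hin s hs)).trans (le_max_right _ _))
    rw [hn1] at h1
    have h2 : φ s0 = 1 := he2
    rw [h2] at h1
    exact h1
  obtain ⟨Γ0, hΓ0⟩ : ∃ Γ0, ∀ s ∈ Icc a b, ‖γ s‖ ≤ Γ0 :=
    isCompact_Icc.exists_bound_of_continuousOn hγc.continuousOn
  have hΓ00 : 0 ≤ Γ0 := (norm_nonneg _).trans (hΓ0 s0 (hψin s0 hs0))
  set ρ : ℝ := 2 / ‖e‖ with hρ
  set R : ℝ := ρ + 2 * Γ0 with hR
  set κ : ℝ := (2 * C1) ^ (1 / (n : ℝ)) with hκ
  have hκ0 : 0 < κ := by positivity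
  -- the set of positive measure
  set E : Set (En n) := {x | 1 < ⟪e, x⟫} ∩ {x | ⟪e, x⟫ < 2} ∩ ball 0 ρ with hE
  have hEo : IsOpen E :=
    ((isOpen_lt continuous_const (by fun_prop)).inter
      (isOpen_lt (by fun_prop) continuous_const)).inter isOpen_ball
  have hEn : E.Nonempty := by
    refine ⟨(3 / 2 * (‖e‖ ^ 2)⁻¹) • e, ?_⟩
    have h1 : ⟪e, (3 / 2 * (‖e‖ ^ 2)⁻¹) • e⟫ = 3 / 2 := by
      rw [real_inner_smul_right, real_inner_self_eq_norm_sq]
      field_simp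
    refine ⟨⟨?_, ?_⟩, ?_⟩
    · rw [mem_setOf_eq, h1]; norm_num
    · rw [mem_setOf_eq, h1]; norm_num
    · rw [mem_ball_zero_iff, norm_smul, Real.norm_eq_abs, abs_of_nonneg (by positivity), hρ]
      have h2 : 3 / 2 * (‖e‖ ^ 2)⁻¹ * ‖e‖ = (3 / 2) / ‖e‖ := by
        field_simp
      rw [h2]
      gcongr
      norm_num
  have hEpos : 0 < volume E := hEo.measure_pos _ hEn
  have hEfin : volume E ≠ ⊤ :=
    ((measure_mono inter_subset_right).trans_lt measure_ball_lt_top).ne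
  -- the lower bound
  have hlow : ∀ ε : ℝ, 0 < ε → ∀ x ∈ E,
      ψ s0 / 2 * (κ⁻¹ * Real.log ((κ * η + ε) / ε)) ≤ Mx γ ψ (tf e R ε) x := by
    intro ε hε x hx
    obtain ⟨⟨hx1, hx2⟩, hx3⟩ := hx
    rw [mem_setOf_eq] at hx1 hx2
    rw [mem_ball_zero_iff] at hx3
    set t : ℝ := ⟪e, x⟫ with ht
    have ht0 : 0 < t := by linarith
    refine le_trans ?_ (Mx_ge γ hγc ψ hψ hψc (tf e R ε) (continuous_tf hε) ε⁻¹
      (fun y => by rw [abs_of_nonneg (tf_nonneg hε y)]; exact tf_le' hε y) x t ht0)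
    have hfc : Continuous fun s => ψ s * tf e R ε (x - t • γ s) :=
      hψ.mul ((continuous_tf hε).comp (by fun_prop))
    have hfi : Integrable (fun s => ψ s * tf e R ε (x - t • γ s)) volume :=
      hfc.integrable_of_hasCompactSupport hψc.mul_right
    have hpt : ∀ s ∈ Ioo (s0 - η) (s0 + η), ψ s0 / 2 * (κ * |s - s0| + ε)⁻¹ ≤
        ψ s * tf e R ε (x - t • γ s) := by
      intro s hs
      have hsη : |s - s0| ≤ η := abs_le.2 ⟨by linarith [hs.1], by linarith [hs.2]⟩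
      have hnorm : ‖x - t • γ s‖ ≤ R := by
        calc ‖x - t • γ s‖ ≤ ‖x‖ + ‖t • γ s‖ := norm_sub_le _ _
          _ ≤ ρ + 2 * Γ0 := by
            rw [norm_smul, Real.norm_eq_abs, abs_of_pos ht0]
            have h1 := hΓ0 s (hin s hsη)
            have h2 : t * ‖γ s‖ ≤ 2 * Γ0 := mul_le_mul hx2.le h1 (norm_nonneg _) (by norm_num)
            linarith
      rw [tf_eq hε _ hnorm]
      have h3 : ⟪e, x - t • γ s⟫ = t * (1 - φ s) := by
        rw [inner_sub_right, real_inner_smul_right, ← ht]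
        ring
      have h4 : |⟪e, x - t • γ s⟫| ≤ 2 * C1 * |s - s0| ^ n := by
        rw [h3, abs_mul, abs_of_pos ht0, abs_sub_comm]
        calc t * |φ s - 1| ≤ 2 * (C1 * |s - s0| ^ n) :=
              mul_le_mul hx2.le (htay s hsη) (abs_nonneg _) (by norm_num)
          _ = _ := by ring
      have h5 : |⟪e, x - t • γ s⟫| ^ (1 / (n : ℝ)) ≤ κ * |s - s0| := by
        calc |⟪e, x - t • γ s⟫| ^ (1 / (n : ℝ)) ≤ (2 * C1 * |s - s0| ^ n) ^ (1 / (n : ℝ)) :=
              Real.rpow_le_rpow (abs_nonneg _) h4 (by positivity)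
          _ = κ * |s - s0| := by
              rw [Real.mul_rpow (by positivity) (by positivity), ← Real.rpow_natCast |s - s0| n,
                ← Real.rpow_mul (abs_nonneg _), mul_one_div_cancel hnr.ne', Real.rpow_one]
      have h6 := den_pos (e := e) hε (x - t • γ s)
      apply mul_le_mul (hηψ s hsη) _ (by positivity) (hψ0 s)
      apply inv_anti₀ h6
      linarith
    have hc : Continuous fun s : ℝ => (κ * |s - s0| + ε)⁻¹ :=
      (cont_inv ε hε κ hκ0).comp (by fun_prop : Continuous fun s : ℝ => s - s0)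
    calc ψ s0 / 2 * (κ⁻¹ * Real.log ((κ * η + ε) / ε))
        ≤ ψ s0 / 2 * ∫ s in Ioo (s0 - η) (s0 + η), (κ * |s - s0| + ε)⁻¹ := by
          gcongr
          exact low_int ε κ η s0 hε hκ0 hη
      _ = ∫ s in Ioo (s0 - η) (s0 + η), ψ s0 / 2 * (κ * |s - s0| + ε)⁻¹ := by
          rw [integral_const_mul]
      _ ≤ ∫ s in Ioo (s0 - η) (s0 + η), ψ s * tf e R ε (x - t • γ s) := by
          apply setIntegral_mono_on _ hfi.integrableOn measurableSet_Ioo hpt
          exact ((continuous_const.mul hc).integrableOn_Icc (a := s0 - η) (b := s0 + η)).mono_set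
            Ioo_subset_Icc_self
      _ ≤ ∫ s, ψ s * tf e R ε (x - t • γ s) :=
          setIntegral_le_integral hfi (Eventually.of_forall fun s =>
            mul_nonneg (hψ0 s) (tf_nonneg hε _))
  -- comparison
  set V := volume (closedBall (0 : En n) (R + 1 + ‖e‖⁻¹)) with hV
  set V1 := volume (closedBall (0 : En n) (R + 1)) ^ (1 / p.toReal - 1 / (n : ℝ)) with hV1
  have hVt : V ≠ ⊤ := measure_closedBall_lt_top.ne
  have hpn : p.toReal ≤ n := by
    have := ENNReal.toReal_mono (ENNReal.natCast_ne_top n) hp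
    rwa [ENNReal.toReal_natCast] at this
  have hexp : 0 ≤ 1 / p.toReal - 1 / (n : ℝ) := by
    have := one_div_le_one_div_of_le hpr hpn
    linarith
  have hV1t : V1 ≠ ⊤ := ENNReal.rpow_ne_top_of_nonneg hexp measure_closedBall_lt_top.ne
  set aE : ℝ := (volume E).toReal ^ (1 / p.toReal) with haE
  have haE0 : 0 < aE := Real.rpow_pos_of_pos (ENNReal.toReal_pos hEpos.ne' hEfin) _
  set bC : ℝ := C.toReal * V.toReal ^ (1 / (n : ℝ)) * V1.toReal with hbC
  have hbC0 : 0 ≤ bC := by positivity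
  have hcmp : ∀ ε : ℝ, 0 < ε → 0 ≤ Real.log ((κ * η + ε) / ε) →
      ψ s0 / 2 * (κ⁻¹ * Real.log ((κ * η + ε) / ε)) * aE ≤
        bC * (1 + 2 * Real.log ((1 + ε ^ n) / ε ^ n)) ^ (1 / (n : ℝ)) := by
    intro ε hε hlog
    set Λ : ℝ := ψ s0 / 2 * (κ⁻¹ * Real.log ((κ * η + ε) / ε)) with hΛ
    have hΛ0 : 0 ≤ Λ := by positivity
    have hlog2 : 0 ≤ Real.log ((1 + ε ^ n) / ε ^ n) := Real.log_nonneg (by
      rw [le_div_iff₀ (by positivity)]; linarith)
    have h1 : eLpNorm (E.indicator fun _ => Λ) p volume ≤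
        eLpNorm (Mx γ ψ (tf e R ε)) p volume := by
      apply eLpNorm_mono
      intro x
      by_cases hx : x ∈ E
      · rw [indicator_of_mem hx, Real.norm_eq_abs, Real.norm_eq_abs, abs_of_nonneg hΛ0]
        exact (hlow ε hε x hx).trans (le_abs_self _)
      · rw [indicator_of_notMem hx, norm_zero]
        exact norm_nonneg _
    rw [eLpNorm_indicator_const hEo.measurableSet hp0 hpt] at h1
    have h2 := H (tf e R ε) (continuous_tf hε) (tf_compact hε) (tf_cvx hn0 hε)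
    have h3 := tf_norm_p (e := e) (R := R) hn0 he hε p hp
    rw [← hV, ← hV1] at h3
    have h4 : ‖Λ‖ₑ * volume E ^ (1 / p.toReal) ≤ C * ((V *
        ENNReal.ofReal (1 + 2 * Real.log ((1 + ε ^ n) / ε ^ n))) ^ (1 / (n : ℝ)) * V1) :=
      (h1.trans h2).trans (by gcongr)
    have hpos : (0 : ℝ) ≤ 1 / (n : ℝ) := by positivity
    have h5 := ENNReal.toReal_mono (ENNReal.mul_ne_top hC (ENNReal.mul_ne_top
      (ENNReal.rpow_ne_top_of_nonneg hpos (ENNReal.mul_ne_top hVt ENNReal.ofReal_ne_top))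
      hV1t)) h4
    rw [ENNReal.toReal_mul, ENNReal.toReal_mul, ENNReal.toReal_mul, toReal_enorm,
      Real.norm_eq_abs, abs_of_nonneg hΛ0, ← ENNReal.toReal_rpow, ← ENNReal.toReal_rpow,
      ENNReal.toReal_mul, ENNReal.toReal_ofReal (by linarith),
      Real.mul_rpow ENNReal.toReal_nonneg (by linarith)] at h5
    calc Λ * aE ≤ _ := h5
      _ = _ := by rw [hbC]; ring
  -- the limit
  refine final_real (ψ s0 / 2 * κ⁻¹ * aE) (Real.log (κ * η)) bC n (by positivity) hbC0 hn ?_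
  intro L hL
  set ε : ℝ := Real.exp (-L) with hε
  have hε0 : 0 < ε := Real.exp_pos _
  have hε1 : ε ≤ 1 := Real.exp_le_one_iff.2 (by linarith)
  have hκη : 0 < κ * η := by positivity
  have hl1 : L + Real.log (κ * η) ≤ Real.log ((κ * η + ε) / ε) := by
    rw [Real.log_div (by positivity) hε0.ne', hε, Real.log_exp]
    have : Real.log (κ * η) ≤ Real.log (κ * η + Real.exp (-L)) :=
      Real.log_le_log hκη (by linarith [Real.exp_pos (-L)])
    linarith
  have hl0 : 0 ≤ Real.log ((κ * η + ε) / ε) := Real.log_nonneg (by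
    rw [le_div_iff₀ hε0]; linarith)
  have hl2 : 1 + 2 * Real.log ((1 + ε ^ n) / ε ^ n) ≤ 3 + 2 * n * L := by
    have h1 : Real.log ((1 + ε ^ n) / ε ^ n) ≤ Real.log 2 + n * L := by
      rw [Real.log_div (by positivity) (by positivity), Real.log_pow, hε, Real.log_exp]
      have : Real.log (1 + Real.exp (-L) ^ n) ≤ Real.log 2 := by
        apply Real.log_le_log (by positivity)
        have : Real.exp (-L) ^ n ≤ 1 := pow_le_one₀ hε0.le hε1
        linarith
      nlinarith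
    have h2 : Real.log 2 ≤ 1 := by
      have := Real.log_two_lt_d9
      linarith
    nlinarith
  have hlog2 : 0 ≤ Real.log ((1 + ε ^ n) / ε ^ n) := Real.log_nonneg (by
    rw [le_div_iff₀ (by positivity)]; linarith)
  calc ψ s0 / 2 * κ⁻¹ * aE * (L + Real.log (κ * η))
      ≤ ψ s0 / 2 * κ⁻¹ * aE * Real.log ((κ * η + ε) / ε) := by gcongr
    _ = ψ s0 / 2 * (κ⁻¹ * Real.log ((κ * η + ε) / ε)) * aE := by ring
    _ ≤ _ := hcmp ε hε0 hl0
    _ ≤ bC * (3 + 2 * n * L) ^ (1 / (n : ℝ)) := by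
        gcongr

end Pool.Agent.MC
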